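import Mathlib
import Pool.Agent.Lib.MP_f2967f_an.Eig

set_option autoImplicit false

/-!
# Arithmetic of places over two
-/

namespace Pool.Agent.MPf2967f.Odd

open IsLocalRing Polynomial

/-- A place over two at which an algebraic integer of even norm is not a unit. -/
lemma exists_place {y : ℂ} (hy : IsIntegral ℤ y) (hev : Even ((minpoly ℤ y).coeff 0)) :
    ∃ V : ValuationSubring ℂ, (2 : ℂ)⁻¹ ∉ V ∧ ∃ C : V, (C : ℂ) = y ∧ residue V C = 0 := by
  set A : Subring ℂ := (Algebra.adjoin ℤ {y}).toSubring with hA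
  have hyA : y ∈ A := Algebra.subset_adjoin (Set.mem_singleton y)
  set I : Ideal A := Ideal.span {2, ⟨y, hyA⟩} with hI
  have hne : I ≠ ⊤ := by
    intro htop
    have h1 : (1 : A) ∈ I := by rw [htop]; trivial
    rw [hI, Ideal.mem_span_pair] at h1
    obtain ⟨a, b, hab⟩ := h1
    have ha : (a : ℂ) ∈ Algebra.adjoin ℤ {y} := a.2
    have hb : (b : ℂ) ∈ Algebra.adjoin ℤ {y} := b.2
    rw [Algebra.adjoin_singleton_eq_range_aeval] at ha hb
    obtain ⟨p, hp⟩ := ha
    obtain ⟨q, hq⟩ := hb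
    have h2 : (a : ℂ) * 2 + b * y = 1 := congrArg (fun x : A => (x : ℂ)) hab
    have h3 : aeval y (p * 2 + q * X - 1 : ℤ[X]) = 0 := by
      simp only [map_sub, map_add, map_mul, aeval_X, map_one, map_ofNat]
      have hp' : aeval y p = (a : ℂ) := hp
      have hq' : aeval y q = (b : ℂ) := hq
      rw [hp', hq', h2, sub_self]
    obtain ⟨R, hR⟩ := minpoly.isIntegrallyClosed_dvd hy h3
    have h4 := congrArg (fun P : ℤ[X] => P.coeff 0) hR
    simp only [mul_coeff_zero, coeff_sub, coeff_add, coeff_X_zero, mul_zero, coeff_one_zero,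
      add_zero] at h4
    have h5 : (2 : ℤ[X]).coeff 0 = 2 := by simp
    rw [h5] at h4
    obtain ⟨e, he⟩ := hev
    rw [he] at h4
    have h6 : 2 * (p.coeff 0 - e * R.coeff 0) = 1 := by linear_combination h4
    generalize p.coeff 0 - e * R.coeff 0 = r at h6
    omega
  obtain ⟨V, hAV, hV⟩ := Ideal.image_subset_nonunits_valuationSubring I hne
  have hmem : ∀ x : A, x ∈ I → V.valuation (x : ℂ) < 1 := fun x hx =>
    (ValuationSubring.mem_nonunits_iff V).mp (hV ⟨x, hx, rfl⟩)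
  have h2 : V.valuation (2 : ℂ) < 1 := hmem 2 (Ideal.subset_span (by simp))
  have hyv : V.valuation y < 1 := hmem ⟨y, hyA⟩ (Ideal.subset_span (by simp))
  refine ⟨V, ?_, ⟨y, hAV hyA⟩, rfl, ?_⟩
  · intro h
    rw [← V.valuation_le_one_iff, map_inv₀] at h
    have h3 : V.valuation (2 : ℂ) ≠ 0 := (_root_.map_ne_zero _).mpr two_ne_zero
    have h4 : V.valuation (2 : ℂ) * (V.valuation (2 : ℂ))⁻¹ = 1 := mul_inv_cancel₀ h3
    have h5 : V.valuation (2 : ℂ) * (V.valuation (2 : ℂ))⁻¹ ≤ V.valuation (2 : ℂ) * 1 := by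
      gcongr
    rw [h4, mul_one] at h5
    exact absurd h2 (not_lt.mpr h5)
  · rw [residue_eq_zero_iff]
    exact (V.valuation_lt_one_iff _).mpr hyv

lemma residue_two {V : ValuationSubring ℂ} (h : (2 : ℂ)⁻¹ ∉ V) : residue V 2 = 0 := by
  rw [residue_eq_zero_iff, mem_maximalIdeal, mem_nonunits_iff]
  intro hu
  obtain ⟨x, hx⟩ := hu.exists_right_inv
  apply h
  have h1 : (2 : ℂ) * x = 1 := congrArg (fun y : V => (y : ℂ)) hx
  have h2 : (x : ℂ) = (2 : ℂ)⁻¹ := eq_inv_of_mul_eq_one_right h1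
  rw [← h2]
  exact x.2

/-- The order of the multiplier in the residue field. -/
lemma finite_order {F : Type*} [Field F] (h2 : (2 : F) = 0) {κ : F} (hκ0 : κ ≠ 0) {P : ℤ[X]}
    (hP : P.Monic) (hroot : P.eval₂ (Int.castRingHom F) ((κ + κ⁻¹) ^ 2) = 0) :
    ∃ e, 1 ≤ e ∧ e ≤ P.natDegree ∧ κ ^ (4 ^ e - 1) = 1 := by
  have hchar : CharP F 2 := CharTwo.of_one_ne_zero_of_two_eq_zero one_ne_zero h2
  let _ : Algebra (ZMod 2) F := ZMod.algebra F 2
  set ρ : F := κ + κ⁻¹ with hρ
  set P2 : (ZMod 2)[X] := P.map (Int.castRingHom (ZMod 2)) with hP2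
  have hP2m : P2.Monic := hP.map _
  have hP2d : P2.natDegree = P.natDegree := hP.natDegree_map _
  have h3 : aeval (ρ ^ 2) P2 = 0 := by
    rw [hP2, aeval_def, eval₂_map]
    have : (algebraMap (ZMod 2) F).comp (Int.castRingHom (ZMod 2)) = Int.castRingHom F :=
      RingHom.ext_int _ _
    rw [this]
    exact hroot
  have h4 : aeval ρ P2 = 0 := by
    have h5 : (aeval ρ P2) ^ 2 = 0 := by
      rw [← map_pow, ← ZMod.expand_card, expand_aeval, h3]
    exact pow_eq_zero_iff two_ne_zero |>.mp h5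
  have hint : IsIntegral (ZMod 2) ρ := ⟨P2, hP2m, h4⟩
  set K := IntermediateField.adjoin (ZMod 2) {ρ} with hK
  have hfin : FiniteDimensional (ZMod 2) K := IntermediateField.adjoin.finiteDimensional hint
  have hdeg : Module.finrank (ZMod 2) K ≤ P.natDegree := by
    rw [hK, IntermediateField.adjoin.finrank hint, ← hP2d]
    exact natDegree_le_of_degree_le ((minpoly.min _ _ hP2m h4).trans degree_le_natDegree)
  have hpos : 1 ≤ Module.finrank (ZMod 2) K := Module.finrank_pos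
  have : Finite K := Module.finite_of_finite (ZMod 2)
  have : Fintype K := Fintype.ofFinite K
  have hcard : Fintype.card K = 2 ^ Module.finrank (ZMod 2) K := by
    rw [Module.card_eq_pow_finrank (K := ZMod 2) (V := K), ZMod.card]
  set e := Module.finrank (ZMod 2) K with he
  have hρq : ρ ^ (2 ^ e) = ρ := by
    have h6 := FiniteField.pow_card (⟨ρ, IntermediateField.mem_adjoin_simple_self _ ρ⟩ : K)
    rw [hcard] at h6
    exact congrArg (fun x : K => (x : F)) h6
  refine ⟨e, hpos, hdeg, ?_⟩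
  have h7 : κ ^ (2 ^ e) + (κ⁻¹) ^ (2 ^ e) = κ + κ⁻¹ := by
    rw [← add_pow_char_pow, ← hρ, hρq]
  set q := 2 ^ e with hq
  have h4e : 4 ^ e - 1 = (q - 1) * (q + 1) := by
    have h8 : (4 : ℕ) ^ e = q ^ 2 := by
      rw [hq, ← pow_mul, mul_comm, pow_mul]
      norm_num
    rw [h8]
    have h9 := Nat.sq_sub_sq q 1
    rw [one_pow] at h9
    rw [h9, mul_comm]
  have hq1 : 1 ≤ q := Nat.one_le_two_pow
  have h10 : (κ ^ q - κ) * (κ ^ (q + 1) - 1) = 0 := by
    have h11 : κ ^ q * (κ⁻¹) ^ q = 1 := by rw [← mul_pow, mul_inv_cancel₀ hκ0, one_pow]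
    have h12 : κ * κ⁻¹ = 1 := mul_inv_cancel₀ hκ0
    rw [pow_succ]
    linear_combination κ ^ q * κ * h7 - κ * h11 + κ ^ q * h12
  rcases mul_eq_zero.mp h10 with h13 | h13
  · have h14 : κ ^ (q - 1) = 1 := by
      have h15 : κ ^ (q - 1) * κ = 1 * κ := by
        rw [← pow_succ, Nat.sub_add_cancel hq1, one_mul]
        exact sub_eq_zero.mp h13
      exact mul_right_cancel₀ hκ0 h15
    rw [h4e, pow_mul, h14, one_pow]
  · rw [h4e, mul_comm, pow_mul, sub_eq_zero.mp h13, one_pow]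

lemma natDegree_minpoly_mul {c : ℂ} {n : ℕ} (hn : n ≠ 0) (hy : IsIntegral ℤ (n * c)) :
    (minpoly ℤ (n * c)).natDegree = (minpoly ℚ c).natDegree := by
  have hnC : (n : ℂ) ≠ 0 := Nat.cast_ne_zero.mpr hn
  have h3 : IsIntegral ℚ (n * c) := hy.tower_top
  have h0 : (minpoly ℤ (n * c)).natDegree = (minpoly ℚ (n * c)).natDegree := by
    rw [minpoly.isIntegrallyClosed_eq_field_fractions' ℚ hy, (minpoly.monic hy).natDegree_map]
  have h4 : IntermediateField.adjoin ℚ {n * c} ≤ IntermediateField.adjoin ℚ {c} := by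
    rw [IntermediateField.adjoin_simple_le_iff]
    have := IntermediateField.mem_adjoin_simple_self ℚ c
    exact mul_mem (natCast_mem _ n) this
  have h5 : IntermediateField.adjoin ℚ {c} ≤ IntermediateField.adjoin ℚ {n * c} := by
    rw [IntermediateField.adjoin_simple_le_iff]
    have := IntermediateField.mem_adjoin_simple_self ℚ (n * c)
    have h7 := mul_mem (inv_mem (natCast_mem (IntermediateField.adjoin ℚ {n * c}) n)) this
    rwa [inv_mul_cancel_left₀ hnC] at h7
  have h6 : IsIntegral ℚ c := by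
    have h7 : c = (((n : ℚ)⁻¹ : ℚ) : ℂ) * (n * c) := by push_cast; field_simp
    rw [h7]
    exact (isIntegral_algebraMap (R := ℚ) (A := ℂ) (x := (n : ℚ)⁻¹)).mul h3
  have h7 := IntermediateField.adjoin.finrank h3
  have h8 := IntermediateField.adjoin.finrank h6
  rw [h0, ← h7, le_antisymm h4 h5, h8]

end Pool.Agent.MPf2967f.Odd
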