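import Mathlib
import Pool.Agent.Lib.MP_f2967f_an.Fin.Jet

set_option autoImplicit false

/-!
# Cyclic telescoping, contraction, and the order-three resonance sum
-/

namespace Pool.Agent.MPf2967f.Odd

open Pool.Agent.MPf2967f.Fin IsLocalRing

section tele

variable {R : Type*} [CommRing R] {k : ℕ} [NeZero k]

omit [NeZero k] in
lemma tele_aux (μ : R) (u f : ZMod k → R) (h : ∀ i, u (i + 1) = μ * u i + f i) (i : ZMod k)
    (n : ℕ) : u (i + n) = μ ^ n * u i + ∑ l ∈ Finset.range n, μ ^ (n - 1 - l) * f (i + l) := by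
  induction n with
  | zero => simp
  | succ n ih =>
    have e : i + ((n + 1 : ℕ) : ZMod k) = (i + n) + 1 := by push_cast; ring
    rw [e, h, ih, Finset.sum_range_succ, mul_add, Finset.mul_sum]
    have e1 : ∑ l ∈ Finset.range n, μ * (μ ^ (n - 1 - l) * f (i + l)) =
        ∑ l ∈ Finset.range n, μ ^ (n + 1 - 1 - l) * f (i + l) := by
      refine Finset.sum_congr rfl (fun l hl => ?_)
      rw [Finset.mem_range] at hl
      have e2 : n + 1 - 1 - l = (n - 1 - l) + 1 := by omega
      rw [e2, pow_succ]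
      ring
    rw [e1]
    simp
    ring

omit [NeZero k] in
lemma tele (μ : R) (u f : ZMod k → R) (h : ∀ i, u (i + 1) = μ * u i + f i) (i : ZMod k) :
    (1 - μ ^ k) * u i = ∑ l ∈ Finset.range k, μ ^ (k - 1 - l) * f (i + l) := by
  have h1 := tele_aux μ u f h i k
  have e : i + (k : ZMod k) = i := by simp
  rw [e] at h1
  linear_combination h1

lemma sum_reflect (x : R) (k : ℕ) :
    ∑ l ∈ Finset.range k, x ^ (k - 1 - l) = ∑ l ∈ Finset.range k, x ^ l :=
  Finset.sum_range_reflect (fun l => x ^ l) k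

omit [NeZero k] in
/-- a multiplicative recursion on the cycle -/
lemma mul_iter {F : Type*} [Field F] {μ : F} {f : ZMod k → F} (h : ∀ j, f (j + 1) = μ * f j)
    (j : ZMod k) (n : ℕ) : f (j + n) = μ ^ n * f j := by
  induction n with
  | zero => simp
  | succ n ih =>
    have e : j + ((n + 1 : ℕ) : ZMod k) = (j + n) + 1 := by push_cast; ring
    rw [e, h, ih, pow_succ]
    ring

omit [NeZero k] in
lemma pow_eq_one_of_iter {F : Type*} [Field F] {μ : F} {f : ZMod k → F}
    (h : ∀ j, f (j + 1) = μ * f j) {j : ZMod k} (hj : f j ≠ 0) : μ ^ k = 1 := by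
  have h1 := mul_iter h j k
  have e : j + (k : ZMod k) = j := by simp
  rw [e] at h1
  have h2 : (μ ^ k - 1) * f j = 0 := by linear_combination -h1
  exact sub_eq_zero.mp ((mul_eq_zero.mp h2).resolve_right hj)

end tele

section contract

variable {V : ValuationSubring ℂ} {k : ℕ} [NeZero k]

lemma contract {u : ZMod k → ℂ} (h : ∀ j, ∃ f e₁ e₂ : V, ∃ j₁ j₂ : ZMod k,
    e₁ ∈ maximalIdeal V ∧ e₂ ∈ maximalIdeal V ∧ u j = f + e₁ * u j₁ + e₂ * u j₂) (j : ZMod k) :
    u j ∈ V := by
  obtain ⟨j₀, hj₀⟩ := Finite.exists_max (fun j => V.valuation (u j))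
  rw [← V.valuation_le_one_iff]
  refine (hj₀ j).trans ?_
  by_contra hcon
  push Not at hcon
  obtain ⟨f, e₁, e₂, j₁, j₂, he₁, he₂, hu⟩ := h j₀
  have hpos : 0 < V.valuation (u j₀) := lt_trans zero_lt_one hcon
  have hf : V.valuation (f : ℂ) < V.valuation (u j₀) :=
    lt_of_le_of_lt ((V.valuation_le_one_iff _).mpr f.2) hcon
  have hlt : ∀ (e : V) (i : ZMod k), e ∈ maximalIdeal V →
      V.valuation ((e : ℂ) * u i) < V.valuation (u j₀) := by
    intro e i he
    have h1 : V.valuation (e : ℂ) < 1 := (V.valuation_lt_one_iff e).mp he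
    rw [map_mul]
    calc V.valuation (e : ℂ) * V.valuation (u i) ≤ V.valuation (e : ℂ) * V.valuation (u j₀) := by
          gcongr
          exact hj₀ i
      _ < 1 * V.valuation (u j₀) := by
          exact mul_lt_mul_of_pos_right h1 hpos
      _ = V.valuation (u j₀) := one_mul _
  have h2 : V.valuation (u j₀) < V.valuation (u j₀) := by
    nth_rewrite 1 [hu]
    exact V.valuation.map_add_lt (V.valuation.map_add_lt hf (hlt e₁ j₁ he₁)) (hlt e₂ j₂ he₂)
  exact lt_irrefl _ h2

end contract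

section jet

variable {k : ℕ} [NeZero k] {z : ZMod k → ℂ} {τ : ℂ} {α β a g g' p q h a4 g4 p5 : ZMod k → ℂ}

lemma sum_shift_add (f : ZMod k → ℂ) : ∑ j, f (j + 1) = ∑ j, f j :=
  Equiv.sum_comp (Equiv.addRight (1 : ZMod k)) f

lemma sum_shift_sub (f : ZMod k → ℂ) : ∑ j, f (j - 1) = ∑ j, f j :=
  Equiv.sum_comp (Equiv.subRight (1 : ZMod k)) f

/-- orthogonality -/
lemma ortho {t u β f : ZMod k → ℂ} {τ τ' : ℂ}
    (hu : ∀ j, τ * u (j + 1) + τ' * u (j - 1) = t j * u j + 2 * f j)
    (hβ : ∀ j, τ' * β (j + 1) + τ * β (j - 1) = t j * β j) : ∑ j, β j * f j = 0 := by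
  have h1 : ∑ j, (β j * (τ * u (j + 1))) = ∑ j, β (j - 1) * (τ * u j) := by
    rw [← sum_shift_add (fun j => β (j - 1) * (τ * u j))]
    simp
  have h2 : ∑ j, (β j * (τ' * u (j - 1))) = ∑ j, β (j + 1) * (τ' * u j) := by
    rw [← sum_shift_sub (fun j => β (j + 1) * (τ' * u j))]
    simp
  have h3 : ∑ j, (β j * (τ * u (j + 1)) + β j * (τ' * u (j - 1))) =
      ∑ j, (t j * (β j * u j) + 2 * (β j * f j)) := by
    refine Finset.sum_congr rfl (fun j _ => ?_)
    linear_combination β j * hu j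
  rw [Finset.sum_add_distrib, h1, h2, ← Finset.sum_add_distrib] at h3
  have h6 : ∑ j, (t j * (β j * u j) + 2 * (β j * f j)) =
      ∑ j, t j * (β j * u j) + 2 * ∑ j, β j * f j := by
    rw [Finset.sum_add_distrib, ← Finset.mul_sum]
  rw [h6] at h3
  have h4 : ∑ j, (β (j - 1) * (τ * u j) + β (j + 1) * (τ' * u j)) = ∑ j, t j * (β j * u j) := by
    refine Finset.sum_congr rfl (fun j _ => ?_)
    linear_combination u j * hβ j
  rw [h4] at h3
  have h5 : 2 * ∑ j, β j * f j = 0 := by linear_combination -h3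
  exact (mul_eq_zero.mp h5).resolve_left two_ne_zero

/-- the order three resonance relation -/
lemma res3 (J : Jet k z τ α β a g g' p q h a4 g4 p5) :
    ∑ j, (α j * β j * a j + β j ^ 2 * g j) = 0 := by
  have h1 := ortho (t := fun j => 2 * z j) J.hp J.hβ
  rw [← h1]
  refine Finset.sum_congr rfl (fun j _ => ?_)
  ring

/-- the order five resonance relation -/
lemma res5 (J : Jet k z τ α β a g g' p q h a4 g4 p5) :
    ∑ j, β j * (α j * a4 j + β j * g4 j + p j * a j + q j * g j + h j * g' j) = 0 :=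
  ortho (t := fun j => 2 * z j) J.hp5 J.hβ

end jet

end Pool.Agent.MPf2967f.Odd
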