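import Mathlib
import Pool.Agent.Lib.MP_f2967f_an.Odd.Tele

set_option autoImplicit false

/-!
# The resonance sum of order three when `4c` lies in the valuation ring
-/

namespace Pool.Agent.MPf2967f.Odd

open Pool.Agent.MPf2967f.Fin IsLocalRing

variable {V : ValuationSubring ℂ} {k : ℕ} [NeZero k] {z : ZMod k → ℂ}

omit [NeZero k] in
lemma odd_cast {F : Type*} [Field F] (h2 : (2 : F) = 0) (hk : Odd k) : (k : F) = 1 := by
  obtain ⟨m, hm⟩ := hk
  rw [hm]
  push_cast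
  rw [h2]
  ring

lemma isUnit_of_residue {x : V} (hx : residue V x ≠ 0) : IsUnit x := by
  by_contra hcon
  exact hx ((residue_eq_zero_iff _).mpr hcon)

theorem small_core (hk : Odd k) (h2 : residue V 2 = 0) {T T' : V} (hT : T * T' = 1)
    {A B : ZMod k → V} (hA : ∀ j, residue V (A j) = 1) (hB : ∀ j, residue V (B j) = 1)
    {a g g' p q h a4 g4 p5 : ZMod k → ℂ}
    (J : Jet k z (T : ℂ) (fun j => (A j : ℂ)) (fun j => (B j : ℂ)) a g g' p q h a4 g4 p5) :
    (∑ l ∈ Finset.range k, (residue V T') ^ l) *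
      (∑ l ∈ Finset.range k, ((residue V T') ^ 3) ^ l) = 0 := by
  have hAu : ∀ j, IsUnit (A j) := fun j => isUnit_of_residue (by rw [hA]; exact one_ne_zero)
  choose A' hA' using fun j => (hAu j).exists_right_inv
  have hA'r : ∀ j, residue V (A' j) = 1 := by
    intro j
    have h1 := congrArg (residue V) (hA' j)
    rw [map_mul, hA, one_mul, map_one] at h1
    exact h1
  have hTc : (T : ℂ) * T' = 1 := congrArg (fun x : V => (x : ℂ)) hT
  have hTi : (T : ℂ)⁻¹ = T' := inv_eq_of_mul_eq_one_right hTc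
  have hA'c : ∀ j, (A j : ℂ) * A' j = 1 := fun j => congrArg (fun x : V => (x : ℂ)) (hA' j)
  -- the second harmonic
  set y : ZMod k → ℂ := fun i => (T : ℂ) ^ 2 * A i * g (i + 1) - T * A (i + 1) * g i with hy
  set Y : ZMod k → V := fun i => ∑ l ∈ Finset.range k, (T' ^ 3) ^ (k - 1 - l) * A (i + l + 1) ^ 3
    with hYdef
  have hyrec : ∀ i, y (i + 1) = (T' : ℂ) ^ 3 * y i + (A (i + 1) : ℂ) ^ 3 := by
    intro i
    have h1 := J.hg (i + 1)
    have h2 := J.hα (i + 1)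
    rw [hTi, add_sub_cancel_right] at h1 h2
    have e1 : (T' : ℂ) ^ 3 * (T : ℂ) ^ 2 = T' := by
      linear_combination (T' : ℂ) * ((T : ℂ) * T' + 1) * hTc
    have e2 : (T' : ℂ) ^ 3 * (T : ℂ) = (T' : ℂ) ^ 2 := by
      linear_combination (T' : ℂ) ^ 2 * hTc
    simp only [hy]
    linear_combination (A (i + 1) : ℂ) * h1 - g (i + 1) * h2 - (A i : ℂ) * g (i + 1) * e1 +
      (A (i + 1) : ℂ) * g i * e2
  have hY : ∀ i, (1 - ((T' : ℂ) ^ 3) ^ k) * y i = (Y i : ℂ) := by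
    intro i
    rw [tele ((T' : ℂ) ^ 3) y (fun i => (A (i + 1) : ℂ) ^ 3) hyrec i]
    simp only [hYdef]
    push_cast
    rfl
  set x : ZMod k → ℂ := fun i => (A' i : ℂ) * g i with hx
  set X : ZMod k → V := fun i => ∑ l ∈ Finset.range k, T' ^ (k - 1 - l) *
    (T' ^ 2 * A' (i + l) * A' (i + l + 1) * Y (i + l)) with hXdef
  have hxrec : ∀ i, (1 - ((T' : ℂ) ^ 3) ^ k) * x (i + 1) =
      (T' : ℂ) * ((1 - ((T' : ℂ) ^ 3) ^ k) * x i) +
        ((T' : ℂ) ^ 2 * A' i * A' (i + 1) * Y i) := by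
    intro i
    rw [← hY i]
    simp only [hx, hy]
    have e1 : (T' : ℂ) ^ 2 * (T : ℂ) ^ 2 = 1 := by
      linear_combination ((T : ℂ) * T' + 1) * hTc
    have e2 : (T' : ℂ) ^ 2 * (T : ℂ) = (T' : ℂ) := by
      linear_combination (T' : ℂ) * hTc
    have e3 := hA'c i
    have e4 := hA'c (i + 1)
    linear_combination (1 - ((T' : ℂ) ^ 3) ^ k) * (-(A' (i + 1) : ℂ) * g (i + 1) * (A i * A' i) * e1
      + (A' i : ℂ) * g i * (A (i + 1) * A' (i + 1)) * e2
      - (A' (i + 1) : ℂ) * g (i + 1) * e3 + (T' : ℂ) * A' i * g i * e4)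
  have hX : ∀ i, (1 - (T' : ℂ) ^ k) * ((1 - ((T' : ℂ) ^ 3) ^ k) * x i) = (X i : ℂ) := by
    intro i
    rw [tele (T' : ℂ) (fun i => (1 - ((T' : ℂ) ^ 3) ^ k) * x i)
      (fun i => ((T' : ℂ) ^ 2 * A' i * A' (i + 1) * Y i)) hxrec i]
    simp only [hXdef]
    push_cast
    rfl
  -- the zeroth harmonic
  set ya : ZMod k → ℂ := fun i => (A i : ℂ) * a (i + 1) - T * A (i + 1) * a i with hya
  set Ya : ZMod k → V := fun i => ∑ l ∈ Finset.range k, T' ^ (k - 1 - l) *
    (A (i + l + 1) ^ 2 * B (i + l + 1)) with hYadef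
  have hyarec : ∀ i, ya (i + 1) = (T' : ℂ) * ya i + 2 * ((A (i + 1) : ℂ) ^ 2 * B (i + 1)) := by
    intro i
    have h1 := J.ha (i + 1)
    have h2 := J.hα (i + 1)
    rw [add_sub_cancel_right] at h1 h2
    rw [hTi] at h2
    simp only [hya]
    linear_combination (A (i + 1) : ℂ) * h1 - a (i + 1) * h2 + (A (i + 1) : ℂ) * a i * hTc
  have hYa : ∀ i, (1 - (T' : ℂ) ^ k) * ya i = 2 * (Ya i : ℂ) := by
    intro i
    rw [tele (T' : ℂ) ya (fun i => 2 * ((A (i + 1) : ℂ) ^ 2 * B (i + 1))) hyarec i]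
    simp only [hYadef]
    push_cast
    rw [Finset.mul_sum]
    refine Finset.sum_congr rfl (fun l _ => ?_)
    ring
  set xa : ZMod k → ℂ := fun i => (A' i : ℂ) * a i with hxa
  set Xa : ZMod k → V := fun i => ∑ l ∈ Finset.range k, T ^ (k - 1 - l) *
    (A' (i + l) * A' (i + l + 1) * Ya (i + l)) with hXadef
  have hxarec : ∀ i, (1 - (T' : ℂ) ^ k) * xa (i + 1) = (T : ℂ) * ((1 - (T' : ℂ) ^ k) * xa i) +
        2 * ((A' i : ℂ) * A' (i + 1) * Ya i) := by
    intro i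
    have e0 := hYa i
    have e3 := hA'c i
    have e4 := hA'c (i + 1)
    simp only [hya] at e0
    simp only [hxa]
    linear_combination (A' i : ℂ) * A' (i + 1) * e0 -
      (1 - (T' : ℂ) ^ k) * (A' (i + 1) * a (i + 1) * e3 - T * A' i * a i * e4)
  have hXa : ∀ i, (1 - (T : ℂ) ^ k) * ((1 - (T' : ℂ) ^ k) * xa i) = 2 * (Xa i : ℂ) := by
    intro i
    rw [tele (T : ℂ) (fun i => (1 - (T' : ℂ) ^ k) * xa i)
      (fun i => 2 * ((A' i : ℂ) * A' (i + 1) * Ya i)) hxarec i]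
    simp only [hXadef]
    push_cast
    rw [Finset.mul_sum]
    refine Finset.sum_congr rfl (fun l _ => ?_)
    ring
  -- the relation
  have hrel := res3 J
  have hTk : (T : ℂ) ^ k * (T' : ℂ) ^ k = 1 := by rw [← mul_pow, hTc, one_pow]
  have hV : ∑ i, (-(T' ^ k * (1 + T' ^ k + (T' ^ k) ^ 2)) * (2 * Xa i) * (A i ^ 2 * B i) +
      B i ^ 2 * A i * X i) = 0 := by
    apply Subtype.ext
    push_cast
    have e : ∀ i, (-((T' : ℂ) ^ k * (1 + (T' : ℂ) ^ k + ((T' : ℂ) ^ k) ^ 2)) * (2 * (Xa i : ℂ)) *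
        ((A i : ℂ) ^ 2 * B i) + (B i : ℂ) ^ 2 * A i * X i) =
        (1 - ((T' : ℂ) ^ 3) ^ k) * (1 - (T' : ℂ) ^ k) *
          ((A i : ℂ) * B i * a i + (B i : ℂ) ^ 2 * g i) := by
      intro i
      rw [← hXa i, ← hX i]
      have e1 := hA'c i
      have e2 : ((T' : ℂ) ^ 3) ^ k = ((T' : ℂ) ^ k) ^ 3 := by rw [← pow_mul, ← pow_mul, mul_comm]
      rw [e2]
      simp only [hxa, hx]
      set s : ℂ := (T' : ℂ) ^ k
      set t : ℂ := (T : ℂ) ^ k
      linear_combination (1 - s ^ 3) * (1 - s) * (B i : ℂ) ^ 2 * g i * e1 +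
        (1 - s ^ 3) * (1 - s) * (A i : ℂ) * B i * a i * e1 +
        (1 - s) * (1 + s + s ^ 2) * (A' i : ℂ) * a i * A i ^ 2 * B i * hTk
    have e' := Finset.sum_congr (rfl : (Finset.univ : Finset (ZMod k)) = Finset.univ)
      (fun i _ => e i)
    rw [← Finset.mul_sum, hrel, mul_zero] at e'
    exact e'
  have hR := congrArg (residue V) hV
  rw [map_sum, map_zero] at hR
  have hYr : ∀ i, residue V (Y i) = ∑ l ∈ Finset.range k, ((residue V T') ^ 3) ^ l := by
    intro i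
    simp only [hYdef, map_sum, map_mul, map_pow, hA, one_pow, mul_one]
    exact sum_reflect _ _
  have hXr : ∀ i, residue V (X i) = (residue V T') ^ 2 *
      ((∑ l ∈ Finset.range k, (residue V T') ^ l) *
        (∑ l ∈ Finset.range k, ((residue V T') ^ 3) ^ l)) := by
    intro i
    simp only [hXdef, map_sum, map_mul, map_pow, hA'r, mul_one, hYr]
    rw [← Finset.sum_mul, sum_reflect]
    ring
  simp only [map_add, map_mul, map_pow, map_neg, hA, hB, hXr, h2] at hR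
  simp only [zero_mul, mul_zero, one_pow, one_mul, mul_one, zero_add, Finset.sum_const,
    Finset.card_univ, ZMod.card, nsmul_eq_mul] at hR
  have h2' : (2 : ResidueField V) = 0 := by rw [← h2, map_ofNat]
  rw [odd_cast h2' hk, one_mul] at hR
  have hT0 : residue V T' ≠ 0 := by
    have h1 := congrArg (residue V) hT
    rw [map_mul, map_one] at h1
    exact right_ne_zero_of_mul_eq_one h1
  exact (mul_eq_zero.mp hR).resolve_left (pow_ne_zero _ hT0)

end Pool.Agent.MPf2967f.Odd
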