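import Mathlib
import Pool.Agent.Lib.MP_f2967f_an.Odd.Small

set_option autoImplicit false

/-!
# Choice of the gauge of the eigenvectors
-/

namespace Pool.Agent.MPf2967f.Odd

open Pool.Agent.MPf2967f.Fin IsLocalRing

section residue

variable {F : Type*} [Field F] {k : ℕ} [NeZero k]

omit [NeZero k] in
lemma pow_eq_one_of_sq (h2 : (2 : F) = 0) {x : F} (hx : x ^ 2 = 1) : x = 1 := by
  have h1 : (x - 1) ^ 2 = 0 := by linear_combination hx - (x - 1) * h2
  exact sub_eq_zero.mp (pow_eq_zero_iff (two_ne_zero)|>.mp h1)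

omit [NeZero k] in
lemma dichotomy (h2 : (2 : F) = 0) (hk : Odd k) {κ τ : F} (hκ : κ ≠ 0) (hτ : τ ≠ 0)
    (hκk : κ ^ k = 1 → κ = 1) {a : ZMod k → F}
    (h : ∀ j, τ * a (j + 1) + τ⁻¹ * a (j - 1) = (κ + κ⁻¹) * a j) :
    (∀ j, τ * a (j + 1) = κ * a j) ∨ (∀ j, τ * a (j + 1) = κ⁻¹ * a j) := by
  have h' : ∀ j, τ * a (j + 1 + 1) = (κ + κ⁻¹) * a (j + 1) - τ⁻¹ * a j := by
    intro j
    have := h (j + 1)
    rw [add_sub_cancel_right] at this
    linear_combination this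
  have hv : ∀ j, (τ * a (j + 1 + 1) - κ * a (j + 1)) = (τ⁻¹ * κ⁻¹) * (τ * a (j + 1) - κ * a j) := by
    intro j
    rw [h' j]
    field_simp
    ring
  have hu : ∀ j, (τ * a (j + 1 + 1) - κ⁻¹ * a (j + 1)) = (τ⁻¹ * κ) * (τ * a (j + 1) - κ⁻¹ * a j) := by
    intro j
    rw [h' j]
    field_simp
    ring
  by_contra hcon
  push Not at hcon
  obtain ⟨⟨i, hi⟩, ⟨j, hj⟩⟩ := hcon
  have e1 := pow_eq_one_of_iter (f := fun j => τ * a (j + 1) - κ * a j) hv (sub_ne_zero.mpr hi)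
  have e2 := pow_eq_one_of_iter (f := fun j => τ * a (j + 1) - κ⁻¹ * a j) hu (sub_ne_zero.mpr hj)
  have e3 : (κ ^ k) ^ 2 = 1 := by
    have h3 : (τ⁻¹ * κ) ^ k = (τ⁻¹ * κ⁻¹) ^ k * (κ ^ k) ^ 2 := by
      rw [← pow_mul, mul_comm k 2, pow_mul, ← mul_pow]
      congr 1
      field_simp
    rw [e1, e2, one_mul] at h3
    exact h3.symm
  have hκ1 : κ = 1 := hκk (pow_eq_one_of_sq h2 e3)
  subst hκ1
  -- the unipotent case
  have hτk : (τ⁻¹) ^ k = 1 := by
    rw [mul_one] at e2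
    exact e2
  have hw : ∀ n : ℕ, a (i + n) = (τ⁻¹) ^ n * (a i + n * (τ * a (i + 1) - a i)) := by
    intro n
    induction n with
    | zero => simp
    | succ n ih =>
      have hvn := mul_iter (f := fun j => τ * a (j + 1) - 1 * a j) hv i n
      simp only [inv_one, mul_one, one_mul] at hvn
      have e : i + ((n + 1 : ℕ) : ZMod k) = i + n + 1 := by push_cast; ring
      rw [e]
      have h3 : τ * a (i + n + 1) = (τ⁻¹) ^ n * (a i + (n + 1) * (τ * a (i + 1) - a i)) := by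
        rw [ih] at hvn
        linear_combination hvn
      have h4 : a (i + n + 1) = τ⁻¹ * (τ * a (i + n + 1)) := by field_simp
      rw [h4, h3]
      push_cast
      ring
  have h5 := hw k
  have e : i + (k : ZMod k) = i := by simp
  rw [e, hτk, odd_cast h2 hk] at h5
  apply hi
  linear_combination -h5

omit [NeZero k] in
lemma pow_mod_eq {M : Type*} [Monoid M] {x : M} (hx : x ^ k = 1) (n : ℕ) : x ^ (n % k) = x ^ n := by
  conv_rhs => rw [← Nat.mod_add_div n k]
  rw [pow_add, pow_mul, hx, one_pow, mul_one]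

lemma pow_val_succ {M : Type*} [Monoid M] {x : M} (hx : x ^ k = 1) (j : ZMod k) :
    x ^ (j + 1).val = x ^ j.val * x := by
  rw [ZMod.val_add, pow_mod_eq hx, pow_add]
  congr 1
  rw [ZMod.val_one_eq_one_mod, pow_mod_eq hx, pow_one]

lemma val_iter {ζ : F} {a : ZMod k → F} (h : ∀ j, a (j + 1) = ζ * a j) (j : ZMod k) :
    a j = ζ ^ j.val * a 0 := by
  have := mul_iter h 0 j.val
  rw [zero_add, ZMod.natCast_zmod_val] at this
  exact this

end residue

section lift

variable {V : ValuationSubring ℂ} {k : ℕ} [NeZero k]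

/-- Roots of unity of the residue field lift. -/
lemma exists_root_lift {x : ResidueField V} (hx : x ^ k = 1) :
    ∃ ζ : V, ζ ^ k = 1 ∧ residue V ζ = x := by
  have hk : k ≠ 0 := NeZero.ne k
  have hprim := Complex.isPrimitiveRoot_exp k hk
  set ω : ℂ := Complex.exp (2 * Real.pi * Complex.I / k) with hω
  have hωV : ω ∈ V := mem_of_pow_mem V hk (by rw [hprim.pow_eq_one]; exact V.one_mem)
  have hprimV : IsPrimitiveRoot (⟨ω, hωV⟩ : V) k := by
    refine IsPrimitiveRoot.of_map_of_injective (f := V.subtype) ?_ Subtype.val_injective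
    exact hprim
  have h1 := Polynomial.X_pow_sub_one_eq_prod (Nat.pos_of_ne_zero hk) hprimV
  have h2 := congrArg (fun P => (P.map (residue V)).eval x) h1
  simp only [Polynomial.map_sub, Polynomial.map_pow, Polynomial.map_X, Polynomial.map_one,
    Polynomial.eval_sub, Polynomial.eval_pow, Polynomial.eval_X, Polynomial.eval_one, hx, sub_self,
    Polynomial.map_prod, Polynomial.eval_prod, Polynomial.map_C, Polynomial.eval_C] at h2
  obtain ⟨ζ, hζ, hζ'⟩ := Finset.prod_eq_zero_iff.mp h2.symm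
  refine ⟨ζ, ?_, (sub_eq_zero.mp hζ').symm⟩
  exact (Polynomial.mem_nthRootsFinset (Nat.pos_of_ne_zero hk) _).mp hζ

lemma exists_two_mul_inv {ζ : V} (hζ : ζ ^ k = 1) : ∃ ζ' : V, ζ * ζ' = 1 ∧ ζ' ^ k = 1 := by
  have hk : k ≠ 0 := NeZero.ne k
  have h1 : ζ * ζ ^ (k - 1) = 1 := by
    rw [← pow_succ', Nat.sub_add_cancel (Nat.pos_of_ne_zero hk), hζ]
  refine ⟨ζ ^ (k - 1), h1, ?_⟩
  rw [← pow_mul, mul_comm, pow_mul, hζ, one_pow]

/-- The multiplier lies in `V`. -/
lemma tau_mem {t : ZMod k → V} {τ : ℂ} (hτ0 : τ ≠ 0) {α : ZMod k → ℂ} (hα0 : α ≠ 0)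
    (h : ∀ j, τ * α (j + 1) + τ⁻¹ * α (j - 1) = t j * α j) : τ ∈ V := by
  by_contra hτ
  have hinv : τ⁻¹ ∈ V := (V.mem_or_inv_mem _).resolve_left hτ
  obtain ⟨j₀, hj₀, hj⟩ := exists_normalise V α hα0
  set A : ZMod k → V := fun j => ⟨α j / α j₀, hj j⟩ with hA
  set s : V := ⟨τ⁻¹, hinv⟩ with hs
  have hsm : s ∈ maximalIdeal V := by
    rw [mem_maximalIdeal, mem_nonunits_iff]
    intro hu
    obtain ⟨x, hx⟩ := hu.exists_right_inv
    apply hτ
    have h1 : τ⁻¹ * x = 1 := congrArg (fun x : V => (x : ℂ)) hx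
    have h2 : (x : ℂ) = τ := by
      field_simp at h1
      exact h1
    rw [← h2]
    exact x.2
  have h1 := h (j₀ - 1)
  rw [sub_add_cancel] at h1
  have h2 : (1 : V) = s * (t (j₀ - 1) * A (j₀ - 1)) - s * s * A (j₀ - 1 - 1) := by
    apply Subtype.ext
    simp only [hA, hs]
    push_cast
    have hττ : τ * τ⁻¹ = 1 := mul_inv_cancel₀ hτ0
    field_simp
    linear_combination h1 * τ - α (j₀ - 1 - 1) * hττ
  have h3 : (1 : V) ∈ maximalIdeal V := by
    rw [h2]
    exact Ideal.sub_mem _ (Ideal.mul_mem_right _ _ hsm)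
      (Ideal.mul_mem_right _ _ (Ideal.mul_mem_right _ _ hsm))
  exact h3 isUnit_one

/-- Twisting by a root of unity. -/
lemma twist_eqn {t : ZMod k → V} {T T' ζ ζ' : V} (hζ : ζ * ζ' = 1) (hζ'k : ζ' ^ k = 1)
    {A : ZMod k → V} (h : ∀ j, T * A (j + 1) + T' * A (j - 1) = t j * A j) (j : ZMod k) :
    (T * ζ) * (A (j + 1) * ζ' ^ (j + 1).val) + (T' * ζ') * (A (j - 1) * ζ' ^ (j - 1).val) =
      t j * (A j * ζ' ^ j.val) := by
  have h1 := pow_val_succ hζ'k j
  have h2 := pow_val_succ hζ'k (j - 1)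
  rw [sub_add_cancel] at h2
  rw [h1]
  linear_combination ζ' ^ j.val * h j + T * A (j + 1) * ζ' ^ j.val * hζ - T' * A (j - 1) * h2

/-- Both eigenvectors can be chosen congruent to one. -/
theorem exists_gauge (hk : Odd k) (h2 : residue V 2 = 0) {z : ZMod k → ℂ} {t : ZMod k → V}
    (ht : ∀ j, (t j : ℂ) = 2 * z j) {κ : ResidueField V} (hκ0 : κ ≠ 0)
    (hρ : ∀ j, residue V (t j) = κ + κ⁻¹) (hκk : κ ^ k = 1 → κ = 1) :
    ∃ (T T' : V) (A B : ZMod k → V) (τ : ℂˣ), T * T' = 1 ∧ (τ : ℂ) = T ∧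
      (∀ j, residue V (A j) = 1) ∧ (∀ j, residue V (B j) = 1) ∧
      Eigen k z τ (fun j => (A j : ℂ)) (fun j => (B j : ℂ)) ∧
      (residue V T = κ ∨ residue V T = κ⁻¹) := by
  have h2' : (2 : ResidueField V) = 0 := by rw [← h2, map_ofNat]
  obtain ⟨τ, α, β, hα0, hβ0, hE⟩ := Fin.exists_eigen k z
  have hτ0 : (τ : ℂ) ≠ 0 := τ.ne_zero
  have hαe : ∀ j, (τ : ℂ) * α (j + 1) + (τ : ℂ)⁻¹ * α (j - 1) = t j * α j := by
    intro j; rw [ht]; exact hE.hα j
  have hβe : ∀ j, (τ : ℂ)⁻¹ * β (j + 1) + (τ : ℂ) * β (j - 1) = t j * β j := by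
    intro j; rw [ht]; exact hE.hβ j
  have hT : (τ : ℂ) ∈ V := tau_mem hτ0 hα0 hαe
  have hT' : (τ : ℂ)⁻¹ ∈ V := by
    refine tau_mem (t := t) (inv_ne_zero hτ0) hβ0 (fun j => ?_)
    rw [inv_inv]
    exact hβe j
  set T0 : V := ⟨τ, hT⟩ with hT0
  set T0' : V := ⟨(τ : ℂ)⁻¹, hT'⟩ with hT0'
  have hTT : T0 * T0' = 1 := Subtype.ext (mul_inv_cancel₀ hτ0)
  have hTr : residue V T0' = (residue V T0)⁻¹ := by
    have h1 := congrArg (residue V) hTT
    rw [map_mul, map_one] at h1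
    exact (inv_eq_of_mul_eq_one_right h1).symm
  have hTr0 : residue V T0 ≠ 0 := by
    have h1 := congrArg (residue V) hTT
    rw [map_mul, map_one] at h1
    exact left_ne_zero_of_mul_eq_one h1
  obtain ⟨j₀, hj₀, hj⟩ := exists_normalise V α hα0
  obtain ⟨i₀, hi₀, hi⟩ := exists_normalise V β hβ0
  set A0 : ZMod k → V := fun j => ⟨α j / α j₀, hj j⟩ with hA0
  set B0 : ZMod k → V := fun j => ⟨β j / β i₀, hi j⟩ with hB0
  have hA0e : ∀ j, T0 * A0 (j + 1) + T0' * A0 (j - 1) = t j * A0 j := by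
    intro j
    apply Subtype.ext
    simp only [hA0, hT0, hT0']
    push_cast
    have := hαe j
    field_simp at this ⊢
    linear_combination this
  have hB0e : ∀ j, T0' * B0 (j + 1) + T0 * B0 (j - 1) = t j * B0 j := by
    intro j
    apply Subtype.ext
    simp only [hB0, hT0, hT0']
    push_cast
    have := hβe j
    field_simp at this ⊢
    linear_combination this
  have hA0j : A0 j₀ = 1 := Subtype.ext (div_self hj₀)
  have hB0i : B0 i₀ = 1 := Subtype.ext (div_self hi₀)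
  -- residues
  obtain ⟨κ₁, hκ₁, hcase⟩ : ∃ κ₁, (κ₁ = κ ∨ κ₁ = κ⁻¹) ∧
      ∀ j, residue V T0 * residue V (A0 (j + 1)) = κ₁ * residue V (A0 j) := by
    have h3 := dichotomy h2' hk hκ0 hTr0 hκk (a := fun j => residue V (A0 j)) (fun j => by
      have h4 := congrArg (residue V) (hA0e j)
      rw [map_add, map_mul, map_mul, map_mul, hρ, hTr] at h4
      exact h4)
    rcases h3 with h3 | h3
    · exact ⟨κ, Or.inl rfl, h3⟩
    · exact ⟨κ⁻¹, Or.inr rfl, h3⟩
  have hκ₁0 : κ₁ ≠ 0 := by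
    rcases hκ₁ with h | h
    · rwa [h]
    · rw [h]; exact inv_ne_zero hκ0
  have hκ₁s : κ₁ + κ₁⁻¹ = κ + κ⁻¹ := by
    rcases hκ₁ with h | h
    · rw [h]
    · rw [h, inv_inv]; ring
  have hκ₁k : κ₁ ^ k = 1 → κ₁ = 1 := by
    rcases hκ₁ with h | h
    · rwa [h]
    · rw [h, inv_pow, inv_eq_one, inv_eq_one]; exact hκk
  have ha : ∀ j, residue V (A0 (j + 1)) = ((residue V T0)⁻¹ * κ₁) * residue V (A0 j) := by
    intro j
    rw [mul_assoc, ← hcase j]
    field_simp
  have ha1 : residue V (A0 j₀) ≠ 0 := by rw [hA0j, map_one]; exact one_ne_zero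
  have hζk := pow_eq_one_of_iter (f := fun j => residue V (A0 j)) ha ha1
  obtain ⟨ζ, hζ, hζr⟩ := exists_root_lift hζk
  obtain ⟨ζ', hζζ', hζ'k⟩ := exists_two_mul_inv hζ
  have hζ'ζ : ζ' * ζ = 1 := by rw [mul_comm]; exact hζζ'
  have hζ'r : residue V ζ * residue V ζ' = 1 := by rw [← map_mul, hζζ', map_one]
  have hTζ : residue V (T0 * ζ) = κ₁ := by
    rw [map_mul, hζr]
    field_simp
  have hTζ' : residue V (T0' * ζ') = κ₁⁻¹ := by
    have h3 : residue V (T0 * ζ) * residue V (T0' * ζ') = 1 := by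
      rw [← map_mul, ← map_one (residue V)]
      congr 1
      linear_combination ζ * ζ' * hTT + hζζ'
    rw [hTζ] at h3
    exact (inv_eq_of_mul_eq_one_right h3).symm
  -- first eigenvector
  have haj : ∀ j, residue V (A0 j * ζ' ^ j.val) = residue V (A0 0) := by
    intro j
    have h3 := val_iter (a := fun j => residue V (A0 j)) ha j
    rw [map_mul, map_pow, h3, ← hζr, mul_right_comm, ← mul_pow, hζ'r, one_pow, one_mul]
  have ha0 : residue V (A0 0) ≠ 0 := by
    intro h0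
    apply ha1
    have h3 := val_iter (a := fun j => residue V (A0 j)) ha j₀
    rw [h3, h0, mul_zero]
  obtain ⟨u, hu⟩ := (isUnit_of_residue ha0).exists_right_inv
  have hur : residue V (A0 0) * residue V u = 1 := by rw [← map_mul, hu, map_one]
  -- second eigenvector
  have hbe : ∀ j, (T0' * ζ') * (B0 (j + 1) * ζ ^ (j + 1).val) +
      (T0 * ζ) * (B0 (j - 1) * ζ ^ (j - 1).val) = t j * (B0 j * ζ ^ j.val) :=
    twist_eqn hζ'ζ hζ hB0e
  have hb1 : residue V (B0 i₀ * ζ ^ i₀.val) ≠ 0 := by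
    rw [hB0i, one_mul, map_pow]
    exact pow_ne_zero _ (left_ne_zero_of_mul_eq_one hζ'r)
  have hbstep : ∀ j, residue V (B0 (j + 1) * ζ ^ (j + 1).val) =
      1 * residue V (B0 j * ζ ^ j.val) := by
    have h3 := dichotomy h2' hk (κ := κ₁) (τ := κ₁⁻¹) hκ₁0 (inv_ne_zero hκ₁0) hκ₁k
      (a := fun j => residue V (B0 j * ζ ^ j.val)) (fun j => by
        have h4 := congrArg (residue V) (hbe j)
        rw [map_add, map_mul _ (T0' * ζ'), map_mul _ (T0 * ζ), hTζ, hTζ', map_mul _ (t j), hρ,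
          ← hκ₁s] at h4
        rw [inv_inv]
        exact h4)
    rcases h3 with h3 | h3
    · have h5 : ∀ j, residue V (B0 (j + 1) * ζ ^ (j + 1).val) =
          κ₁ ^ 2 * residue V (B0 j * ζ ^ j.val) := by
        intro j
        have := h3 j
        field_simp at this
        linear_combination this
      have h6 := pow_eq_one_of_iter (f := fun j => residue V (B0 j * ζ ^ j.val)) h5 hb1
      have h7 : κ₁ = 1 := by
        apply hκ₁k
        apply pow_eq_one_of_sq h2'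
        rw [← pow_mul, mul_comm, pow_mul]
        exact h6
      intro j
      rw [h5 j, h7, one_pow]
    · intro j
      have h8 := h3 j
      rw [one_mul]
      exact mul_left_cancel₀ (inv_ne_zero hκ₁0) h8
  have hbj : ∀ j, residue V (B0 j * ζ ^ j.val) = residue V (B0 0 * ζ ^ (0 : ZMod k).val) := by
    intro j
    have h3 := val_iter (a := fun j => residue V (B0 j * ζ ^ j.val)) hbstep j
    simp only [one_pow, one_mul] at h3
    exact h3
  have hb0 : residue V (B0 0 * ζ ^ (0 : ZMod k).val) ≠ 0 := by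
    rw [← hbj i₀]
    exact hb1
  obtain ⟨u', hu'⟩ := (isUnit_of_residue hb0).exists_right_inv
  have hur' : residue V (B0 0 * ζ ^ (0 : ZMod k).val) * residue V u' = 1 := by
    rw [← map_mul, hu', map_one]
  have hTT1 : (T0 * ζ) * (T0' * ζ') = 1 := by linear_combination ζ * ζ' * hTT + hζζ'
  have hTTc : ((T0 * ζ : V) : ℂ) * ((T0' * ζ' : V) : ℂ) = 1 :=
    congrArg (fun x : V => (x : ℂ)) hTT1
  have hne : ((T0 * ζ : V) : ℂ) ≠ 0 := left_ne_zero_of_mul_eq_one hTTc
  have hinv : ((T0 * ζ : V) : ℂ)⁻¹ = ((T0' * ζ' : V) : ℂ) := inv_eq_of_mul_eq_one_right hTTc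
  refine ⟨T0 * ζ, T0' * ζ', fun j => A0 j * ζ' ^ j.val * u, fun j => B0 j * ζ ^ j.val * u',
    Units.mk0 _ hne, hTT1, rfl, ?_, ?_, ?_, ?_⟩
  · intro j
    rw [map_mul, haj, hur]
  · intro j
    rw [map_mul, hbj, hur']
  · constructor
    · intro j
      rw [Units.val_mk0, hinv, ← ht]
      have h3 := twist_eqn hζζ' hζ'k hA0e j
      have h4 := congrArg (fun x : V => (x : ℂ) * u) h3
      push_cast at h4 ⊢
      linear_combination h4
    · intro j
      rw [Units.val_mk0, hinv, ← ht]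
      have h4 := congrArg (fun x : V => (x : ℂ) * u') (hbe j)
      push_cast at h4 ⊢
      linear_combination h4
  · rw [hTζ]
    exact hκ₁

end lift

end Pool.Agent.MPf2967f.Odd
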