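import Mathlib
import Pool.Agent.Lib.MP_f2967f_an.Odd.Small

set_option autoImplicit false

/-!
# Places over two where `4c` is not integral
-/

namespace Pool.Agent.MPf2967f.Odd

open Pool.Agent.MPf2967f.Fin IsLocalRing

variable {V : ValuationSubring ℂ} {k : ℕ} [NeZero k]

/-- the local data at a place where `4c` is not integral -/
structure Loc (V : ValuationSubring ℂ) (k : ℕ) [NeZero k] (z : ZMod k → ℂ) (τ : ℂ)
    (α β : ZMod k → V) where
  ϖ : V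
  θ : V
  θ' : V
  b : ZMod k → V
  hϖ : ϖ ∈ maximalIdeal V
  hϖ0 : (ϖ : ℂ) ≠ 0
  hθ : θ * θ' = 1
  hτ : τ * ϖ = θ
  hb : ∀ j, 2 * z j * ϖ = b j
  hbr : ∀ j, residue V (b j) = 1
  hαu : ∀ j, IsUnit (α j)
  hβu : ∀ j, IsUnit (β j)
  hα : ∀ j, θ ^ 2 * α (j + 1) + ϖ ^ 2 * α (j - 1) = θ * (b j * α j)
  hβ : ∀ j, θ ^ 2 * β (j - 1) + ϖ ^ 2 * β (j + 1) = θ * (b j * β j)

omit [NeZero k] in
/-- lifting a `V`-valued sequence -/
lemma exists_lift {u : ZMod k → ℂ} (h : ∀ j, u j ∈ V) : ∃ U : ZMod k → V, ∀ j, (U j : ℂ) = u j :=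
  ⟨fun j => ⟨u j, h j⟩, fun _ => rfl⟩

/-- diagonally dominant systems -/
lemma solve_b {ϖ : V} (hϖ : ϖ ∈ maximalIdeal V) {b : ZMod k → V} (hbu : ∀ j, IsUnit (b j))
    {u : ZMod k → ℂ} {f : ZMod k → V}
    (h : ∀ j, (b j : ℂ) * u j = f j + ϖ * (u (j + 1) + u (j - 1))) : ∀ j, u j ∈ V := by
  refine contract (fun j => ?_)
  obtain ⟨b', hb'⟩ := (hbu j).exists_left_inv
  refine ⟨b' * f j, b' * ϖ, b' * ϖ, j + 1, j - 1, Ideal.mul_mem_left _ _ hϖ,
    Ideal.mul_mem_left _ _ hϖ, ?_⟩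
  have h1 : (b' : ℂ) * b j = 1 := congrArg (fun x : V => (x : ℂ)) hb'
  push_cast
  linear_combination (b' : ℂ) * h j - u j * h1

/-- systems dominated by the forward shift -/
lemma solve_shift {θ θ' e₁ e₂ : V} (hθ : θ * θ' = 1) (he₁ : e₁ ∈ maximalIdeal V)
    (he₂ : e₂ ∈ maximalIdeal V) {b : ZMod k → V} {u : ZMod k → ℂ} {f : ZMod k → V}
    (h : ∀ j, (θ : ℂ) * u (j + 1) = f j + e₁ * (b j * u j) + e₂ * u (j - 1)) : ∀ j, u j ∈ V := by
  refine contract (fun j => ?_)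
  refine ⟨θ' * f (j - 1), θ' * (e₁ * b (j - 1)), θ' * e₂, j - 1, j - 1 - 1,
    Ideal.mul_mem_left _ _ (Ideal.mul_mem_right _ _ he₁), Ideal.mul_mem_left _ _ he₂, ?_⟩
  have h1 : (θ : ℂ) * θ' = 1 := congrArg (fun x : V => (x : ℂ)) hθ
  have h2 := h (j - 1)
  rw [sub_add_cancel] at h2
  push_cast
  linear_combination (θ' : ℂ) * h2 - u j * h1

/-- systems dominated by the backward shift -/
lemma solve_shift' {θ θ' e₁ e₂ : V} (hθ : θ * θ' = 1) (he₁ : e₁ ∈ maximalIdeal V)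
    (he₂ : e₂ ∈ maximalIdeal V) {b : ZMod k → V} {u : ZMod k → ℂ} {f : ZMod k → V}
    (h : ∀ j, (θ : ℂ) * u (j - 1) = f j + e₁ * (b j * u j) + e₂ * u (j + 1)) : ∀ j, u j ∈ V := by
  refine contract (fun j => ?_)
  refine ⟨θ' * f (j + 1), θ' * (e₁ * b (j + 1)), θ' * e₂, j + 1, j + 1 + 1,
    Ideal.mul_mem_left _ _ (Ideal.mul_mem_right _ _ he₁), Ideal.mul_mem_left _ _ he₂, ?_⟩
  have h1 : (θ : ℂ) * θ' = 1 := congrArg (fun x : V => (x : ℂ)) hθ
  have h2 := h (j + 1)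
  rw [add_sub_cancel_right] at h2
  push_cast
  linear_combination (θ' : ℂ) * h2 - u j * h1

/-- the resonant system, normalised at one point -/
lemma solve_res {ϖ θ θ' : V} (hϖ : ϖ ∈ maximalIdeal V) (hθ : θ * θ' = 1) {b α : ZMod k → V}
    (hαu : ∀ j, IsUnit (α j))
    (hα : ∀ j, θ ^ 2 * α (j + 1) + ϖ ^ 2 * α (j - 1) = θ * (b j * α j))
    {u : ZMod k → ℂ} {f : ZMod k → V} (hu0 : u 0 = 0)
    (h : ∀ j, (θ : ℂ) ^ 2 * u (j + 1) + (ϖ : ℂ) ^ 2 * u (j - 1) = θ * (b j * u j) + f j) :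
    ∀ j, u j ∈ V := by
  have h1 : (θ : ℂ) * θ' = 1 := congrArg (fun x : V => (x : ℂ)) hθ
  have hαc : ∀ j, (θ : ℂ) ^ 2 * α (j + 1) + (ϖ : ℂ) ^ 2 * α (j - 1) = θ * (b j * α j) :=
    fun j => congrArg (fun x : V => (x : ℂ)) (hα j)
  have hω : ∀ j, (α j : ℂ) * u (j + 1) - α (j + 1) * u j ∈ V := by
    refine contract (fun j => ?_)
    refine ⟨θ' ^ 2 * (α j * f j), θ' ^ 2 * ϖ ^ 2, 0, j - 1, j, ?_, Ideal.zero_mem _, ?_⟩
    · exact Ideal.mul_mem_left _ _ (Ideal.pow_mem_of_mem _ hϖ 2 (by norm_num))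
    · rw [sub_add_cancel]
      push_cast
      have h2 : (θ : ℂ) ^ 2 * (θ' : ℂ) ^ 2 = 1 := by rw [← mul_pow, h1, one_pow]
      linear_combination (θ' : ℂ) ^ 2 * α j * h j - (θ' : ℂ) ^ 2 * u j * hαc j -
        ((α j : ℂ) * u (j + 1) - α (j + 1) * u j) * h2
  refine cycle_induction (0 : ZMod k) (by rw [hu0]; exact V.zero_mem) (fun j hj => ?_)
  obtain ⟨α', hα'⟩ := (hαu j).exists_left_inv
  have h3 : (α' : ℂ) * α j = 1 := congrArg (fun x : V => (x : ℂ)) hα'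
  have h4 : u (j + 1) = (α' : ℂ) * (((α j : ℂ) * u (j + 1) - α (j + 1) * u j) + α (j + 1) * u j) := by
    linear_combination -u (j + 1) * h3
  rw [h4]
  exact V.mul_mem _ _ α'.2 (V.add_mem _ _ (hω j) (V.mul_mem _ _ (α (j + 1)).2 hj))

lemma solve_res' {ϖ θ θ' : V} (hϖ : ϖ ∈ maximalIdeal V) (hθ : θ * θ' = 1) {b β : ZMod k → V}
    (hβu : ∀ j, IsUnit (β j))
    (hβ : ∀ j, θ ^ 2 * β (j - 1) + ϖ ^ 2 * β (j + 1) = θ * (b j * β j))
    {u : ZMod k → ℂ} {f : ZMod k → V} (hu0 : u 0 = 0)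
    (h : ∀ j, (θ : ℂ) ^ 2 * u (j - 1) + (ϖ : ℂ) ^ 2 * u (j + 1) = θ * (b j * u j) + f j) :
    ∀ j, u j ∈ V := by
  have e1 : ∀ j : ZMod k, -(j + 1) = -j - 1 := fun j => by ring
  have e2 : ∀ j : ZMod k, -(j - 1) = -j + 1 := fun j => by ring
  have key := solve_res (u := fun j => u (-j)) (b := fun j => b (-j)) (α := fun j => β (-j))
    (f := fun j => f (-j)) hϖ hθ (fun j => hβu (-j)) (fun j => by
      simp only [e1, e2]; exact hβ (-j)) (by simpa using hu0) (fun j => by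
      simp only [e1, e2]; exact h (-j))
  intro j
  have := key (-j)
  simpa using this

namespace Loc

variable {z : ZMod k → ℂ} {τ : ℂ} {α β : ZMod k → V} (L : Loc V k z τ α β)

include L

lemma hbu (j : ZMod k) : IsUnit (L.b j) :=
  isUnit_of_residue (by rw [L.hbr]; exact one_ne_zero)

lemma hθc : (L.θ : ℂ) * L.θ' = 1 := congrArg (fun x : V => (x : ℂ)) L.hθ

lemma hτi : τ⁻¹ = L.ϖ * L.θ' := by
  have h1 := L.hτ
  have h2 := L.hθc
  refine inv_eq_of_mul_eq_one_right ?_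
  linear_combination (L.θ' : ℂ) * h1 + h2

lemma hϖr : residue V L.ϖ = 0 := (residue_eq_zero_iff _).mpr L.hϖ

lemma hθr : residue V L.θ ≠ 0 := by
  have h1 := congrArg (residue V) L.hθ
  rw [map_mul, map_one] at h1
  exact left_ne_zero_of_mul_eq_one h1

lemma hαr (j : ZMod k) : residue V L.θ * residue V (α (j + 1)) = residue V (α j) := by
  have h1 := congrArg (residue V) (L.hα j)
  rw [map_add, map_mul, map_mul, map_mul, map_mul, map_pow, map_pow, L.hϖr, L.hbr] at h1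
  apply mul_left_cancel₀ L.hθr
  linear_combination h1

lemma hβr (j : ZMod k) : residue V L.θ * residue V (β j) = residue V (β (j + 1)) := by
  have h1 := congrArg (residue V) (L.hβ (j + 1))
  rw [add_sub_cancel_right] at h1
  rw [map_add, map_mul, map_mul, map_mul, map_mul, map_pow, map_pow, L.hϖr, L.hbr] at h1
  apply mul_left_cancel₀ L.hθr
  linear_combination h1

lemma hPr (j : ZMod k) : residue V (α j) * residue V (β j) = residue V (α 0) * residue V (β 0) := by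
  refine cycle_induction (P := fun j => residue V (α j) * residue V (β j) =
    residue V (α 0) * residue V (β 0)) 0 rfl (fun j hj => ?_) j
  rw [← hj, ← L.hβr j, ← L.hαr j]
  ring

lemma hP0 : residue V (α 0) * residue V (β 0) ≠ 0 :=
  mul_ne_zero ((L.hαu 0).map (residue V)).ne_zero ((L.hβu 0).map (residue V)).ne_zero

variable {a g g' p q h a4 g4 p5 : ZMod k → ℂ}

lemma exists_a (J : Jet k z τ (fun j => (α j : ℂ)) (fun j => (β j : ℂ)) a g g' p q h a4 g4 p5) :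
    ∃ A : ZMod k → V, (∀ j, a j = 2 * L.ϖ * A j) ∧
      ∀ j, residue V (A j) = -(residue V (α 0) * residue V (β 0)) := by
  have hϖ0 := L.hϖ0
  have heq : ∀ j, (L.b j : ℂ) * (a j / (2 * L.ϖ)) = ((-(α j * β j) : V) : ℂ) +
      L.ϖ * (a (j + 1) / (2 * L.ϖ) + a (j - 1) / (2 * L.ϖ)) := by
    intro j
    have h1 := J.ha j
    rw [← L.hb j]
    push_cast
    field_simp
    linear_combination -h1
  obtain ⟨A, hA⟩ := exists_lift (solve_b L.hϖ L.hbu heq)
  refine ⟨A, fun j => ?_, fun j => ?_⟩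
  · rw [hA]; field_simp
  · have h1 : L.b j * A j = -(α j * β j) + L.ϖ * (A (j + 1) + A (j - 1)) := by
      apply Subtype.ext
      have := heq j
      rw [← hA, ← hA, ← hA] at this
      push_cast at this ⊢
      exact this
    have h2 := congrArg (residue V) h1
    rw [map_mul, map_add, map_mul, L.hbr, L.hϖr, zero_mul, add_zero, one_mul, map_neg, map_mul,
      L.hPr j] at h2
    exact h2

lemma exists_g (J : Jet k z τ (fun j => (α j : ℂ)) (fun j => (β j : ℂ)) a g g' p q h a4 g4 p5) :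
    ∃ G : ZMod k → V, (∀ j, g j = L.ϖ ^ 2 * G j) ∧ ∀ j, residue V (G j) = residue V (α j) ^ 2 := by
  have hϖ0 := L.hϖ0
  have hθc := L.hθc
  have hτ := L.hτ
  have heq : ∀ j, ((L.θ ^ 2 : V) : ℂ) * (g (j + 1) / L.ϖ ^ 2) = ((α j ^ 2 : V) : ℂ) +
      L.ϖ * (L.b j * (g j / L.ϖ ^ 2)) + ((-(L.ϖ ^ 4 * L.θ' ^ 2) : V) : ℂ) *
        (g (j - 1) / L.ϖ ^ 2) := by
    intro j
    have h1 := J.hg j
    rw [L.hτi] at h1
    rw [← L.hb j]
    push_cast
    rw [← hτ]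
    field_simp
    linear_combination h1
  obtain ⟨G, hG⟩ := exists_lift (solve_shift (θ := L.θ ^ 2) (θ' := L.θ' ^ 2) (e₂ := -(L.ϖ ^ 4 * L.θ' ^ 2))
    (b := L.b) (u := fun j => g j / (L.ϖ : ℂ) ^ 2) (f := fun j => α j ^ 2)
    (by rw [← mul_pow, L.hθ, one_pow]) L.hϖ
    (Ideal.neg_mem_iff _ |>.mpr (Ideal.mul_mem_right _ _
      (Ideal.pow_mem_of_mem _ L.hϖ 4 (by norm_num)))) heq)
  refine ⟨G, fun j => ?_, fun j => ?_⟩
  · rw [hG]; field_simp
  · have h1 : L.θ ^ 2 * G (j - 1 + 1) = α (j - 1) ^ 2 + L.ϖ * (L.b (j - 1) * G (j - 1)) +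
        -(L.ϖ ^ 4 * L.θ' ^ 2) * G (j - 1 - 1) := by
      apply Subtype.ext
      have := heq (j - 1)
      rw [← hG, ← hG, ← hG] at this
      push_cast at this ⊢
      exact this
    rw [sub_add_cancel] at h1
    have h2 := congrArg (residue V) h1
    rw [map_mul, map_add, map_add, map_mul _ L.ϖ, map_mul _ (-(L.ϖ ^ 4 * L.θ' ^ 2)), map_neg,
      map_mul _ (L.ϖ ^ 4), map_pow _ L.ϖ, L.hϖr, map_pow, map_pow] at h2
    have h3 := L.hαr (j - 1)
    rw [sub_add_cancel] at h3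
    apply mul_left_cancel₀ (pow_ne_zero 2 L.hθr)
    rw [← h3] at h2
    linear_combination h2

lemma exists_g' (J : Jet k z τ (fun j => (α j : ℂ)) (fun j => (β j : ℂ)) a g g' p q h a4 g4 p5) :
    ∃ G : ZMod k → V, ∀ j, g' j = L.ϖ ^ 2 * G j := by
  have hϖ0 := L.hϖ0
  have hθc := L.hθc
  have hτ := L.hτ
  have heq : ∀ j, ((L.θ ^ 2 : V) : ℂ) * (g' (j - 1) / L.ϖ ^ 2) = ((β j ^ 2 : V) : ℂ) +
      L.ϖ * (L.b j * (g' j / L.ϖ ^ 2)) + ((-(L.ϖ ^ 4 * L.θ' ^ 2) : V) : ℂ) *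
        (g' (j + 1) / L.ϖ ^ 2) := by
    intro j
    have h1 := J.hg' j
    rw [L.hτi] at h1
    rw [← L.hb j]
    push_cast
    rw [← hτ]
    field_simp
    linear_combination h1
  obtain ⟨G, hG⟩ := exists_lift (solve_shift' (θ := L.θ ^ 2) (θ' := L.θ' ^ 2) (e₂ := -(L.ϖ ^ 4 * L.θ' ^ 2))
    (b := L.b) (u := fun j => g' j / (L.ϖ : ℂ) ^ 2) (f := fun j => β j ^ 2)
    (by rw [← mul_pow, L.hθ, one_pow]) L.hϖ
    (Ideal.neg_mem_iff _ |>.mpr (Ideal.mul_mem_right _ _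
      (Ideal.pow_mem_of_mem _ L.hϖ 4 (by norm_num)))) heq)
  refine ⟨G, fun j => ?_⟩
  rw [hG]; field_simp

/-- The order three relation determines the size of the parameter. -/
theorem large3 (hk : Odd k) (h2 : residue V 2 = 0)
    (J : Jet k z τ (fun j => (α j : ℂ)) (fun j => (β j : ℂ)) a g g' p q h a4 g4 p5) :
    ∃ η : V, IsUnit η ∧ 2 = L.ϖ * η := by
  have h2' : (2 : ResidueField V) = 0 := by rw [← h2, map_ofNat]
  obtain ⟨A, hA, hAr⟩ := L.exists_a J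
  obtain ⟨G, hG, hGr⟩ := L.exists_g J
  have hrel := res3 J
  have hϖ0 := L.hϖ0
  set U : V := ∑ j, α j * β j * A j with hU
  set W : V := ∑ j, β j ^ 2 * G j with hW
  have h3 : 2 * U + L.ϖ * W = 0 := by
    apply Subtype.ext
    have h4 : (L.ϖ : ℂ) * (2 * (∑ j, (α j : ℂ) * β j * A j) +
        L.ϖ * ∑ j, (β j : ℂ) ^ 2 * G j) = 0 := by
      rw [← hrel]
      simp only [hA, hG]
      rw [Finset.mul_sum, Finset.mul_sum, ← Finset.sum_add_distrib, Finset.mul_sum]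
      refine Finset.sum_congr rfl (fun j _ => ?_)
      ring
    have h5 := (mul_eq_zero.mp h4).resolve_left hϖ0
    simp only [hU, hW]
    push_cast
    exact h5
  have hP0 := L.hP0
  set P := residue V (α 0) * residue V (β 0) with hP
  have hUr : residue V U = -P ^ 2 := by
    simp only [hU, map_sum, map_mul, hAr, L.hPr]
    rw [Finset.sum_const, Finset.card_univ, ZMod.card, nsmul_eq_mul, odd_cast h2' hk, ← hP]
    ring
  have hWr : residue V W = P ^ 2 := by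
    have h6 : ∀ j, residue V (β j ^ 2 * G j) = P ^ 2 := by
      intro j
      rw [map_mul, map_pow, hGr, hP, ← L.hPr j]
      ring
    simp only [hW, map_sum, h6]
    rw [Finset.sum_const, Finset.card_univ, ZMod.card, nsmul_eq_mul, odd_cast h2' hk]
    ring
  obtain ⟨U', hU'⟩ := (isUnit_of_residue (x := U) (by
    rw [hUr]; exact neg_ne_zero.mpr (pow_ne_zero _ hP0))).exists_right_inv
  refine ⟨-(W * U'), ?_, ?_⟩
  · refine isUnit_of_residue ?_
    have h7 := congrArg (residue V) hU'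
    rw [map_mul, map_one] at h7
    rw [map_neg, map_mul, hWr]
    exact neg_ne_zero.mpr (mul_ne_zero (pow_ne_zero _ hP0) (right_ne_zero_of_mul_eq_one h7))
  · linear_combination U' * h3 - 2 * hU'

end Loc

end Pool.Agent.MPf2967f.Odd
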