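import Mathlib
import Pool.Agent.Lib.MP_f2967f_an.Odd.Large

set_option autoImplicit false

/-!
# The resonance sum of order five at the critical size of the parameter
-/

namespace Pool.Agent.MPf2967f.Odd

open Pool.Agent.MPf2967f.Fin IsLocalRing

variable {V : ValuationSubring ℂ} {k : ℕ} [NeZero k]

namespace Loc

variable {z : ZMod k → ℂ} {τ : ℂ} {α β : ZMod k → V} (L : Loc V k z τ α β)
  {a g g' p q h a4 g4 p5 : ZMod k → ℂ}

include L

theorem large5 (hk : Odd k) (h2 : residue V 2 = 0) {η : V} (hηu : IsUnit η) (hη : 2 = L.ϖ * η)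
    (J : Jet k z τ (fun j => (α j : ℂ)) (fun j => (β j : ℂ)) a g g' p q h a4 g4 p5) : False := by
  have h2' : (2 : ResidueField V) = 0 := by rw [← h2, map_ofNat]
  have hη2 : (2 : ℂ) = L.ϖ * η := congrArg (fun x : V => (x : ℂ)) hη
  obtain ⟨A, hA, hAr⟩ := L.exists_a J
  obtain ⟨G, hG, hGr⟩ := L.exists_g J
  obtain ⟨G', hG'⟩ := L.exists_g' J
  have hA' : ∀ j, a j = L.ϖ ^ 2 * (η * A j) := by
    intro j
    rw [hA j, hη2]
    ring
  have hϖ0 := L.hϖ0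
  have hθc := L.hθc
  have hτ := L.hτ
  have hτi := L.hτi
  have hb := L.hb
  have hα0 : (α 0 : ℂ) ≠ 0 := Setup.coe_ne_zero_of_isUnit (L.hαu 0)
  have hβ0 : (β 0 : ℂ) ≠ 0 := Setup.coe_ne_zero_of_isUnit (L.hβu 0)
  have hαc : ∀ j, (L.θ : ℂ) ^ 2 * α (j + 1) + (L.ϖ : ℂ) ^ 2 * α (j - 1) = L.θ * (L.b j * α j) :=
    fun j => congrArg (fun x : V => (x : ℂ)) (L.hα j)
  have hβc : ∀ j, (L.θ : ℂ) ^ 2 * β (j - 1) + (L.ϖ : ℂ) ^ 2 * β (j + 1) = L.θ * (L.b j * β j) :=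
    fun j => congrArg (fun x : V => (x : ℂ)) (L.hβ j)
  -- the third harmonic in degree three
  obtain ⟨X, hX⟩ : ∃ X : ZMod k → V, ∀ j, h j = L.ϖ ^ 6 * X j := by
    have heq : ∀ j, ((L.θ ^ 3 : V) : ℂ) * (h (j + 1) / L.ϖ ^ 6) = ((η * α j * G j : V) : ℂ) +
        ((L.ϖ ^ 2 : V) : ℂ) * (L.b j * (h j / L.ϖ ^ 6)) + ((-(L.ϖ ^ 6 * L.θ' ^ 3) : V) : ℂ) *
          (h (j - 1) / L.ϖ ^ 6) := by
      intro j
      have h1 := J.hh j
      rw [hG, hτi] at h1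
      have h3 : (2 * α j * (L.ϖ ^ 2 * G j) : ℂ) = L.ϖ ^ 3 * (η * α j * G j) := by
        linear_combination (L.ϖ : ℂ) ^ 2 * α j * G j * hη2
      rw [← hb j]
      push_cast
      rw [← hτ]
      field_simp
      linear_combination h1 + h3
    obtain ⟨X, hX⟩ := exists_lift (solve_shift (θ := L.θ ^ 3) (θ' := L.θ' ^ 3) (e₁ := L.ϖ ^ 2)
      (e₂ := -(L.ϖ ^ 6 * L.θ' ^ 3)) (b := L.b) (u := fun j => h j / (L.ϖ : ℂ) ^ 6)
      (f := fun j => η * α j * G j) (by rw [← mul_pow, L.hθ, one_pow])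
      (Ideal.pow_mem_of_mem _ L.hϖ 2 (by norm_num))
      (Ideal.neg_mem_iff _ |>.mpr (Ideal.mul_mem_right _ _
        (Ideal.pow_mem_of_mem _ L.hϖ 6 (by norm_num)))) heq)
    refine ⟨X, fun j => ?_⟩
    rw [hX]; field_simp
  -- the resonant harmonics in degree three
  obtain ⟨μ, hμ⟩ : ∃ μ : ℂ, μ * α 0 = p 0 := ⟨p 0 / α 0, by field_simp⟩
  obtain ⟨ν, hν⟩ : ∃ ν : ℂ, ν * β 0 = q 0 := ⟨q 0 / β 0, by field_simp⟩
  obtain ⟨Y, hY⟩ : ∃ Y : ZMod k → V, ∀ j, p j = μ * α j + L.ϖ ^ 4 * Y j := by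
    have heq : ∀ j, (L.θ : ℂ) ^ 2 * ((p (j + 1) - μ * α (j + 1)) / L.ϖ ^ 4) +
        (L.ϖ : ℂ) ^ 2 * ((p (j - 1) - μ * α (j - 1)) / L.ϖ ^ 4) =
        L.θ * (L.b j * ((p j - μ * α j) / L.ϖ ^ 4)) +
          ((L.θ * η * (η * α j * A j + β j * G j) : V) : ℂ) := by
      intro j
      have h1 := J.hp j
      have h3 := J.hα j
      rw [hG, hA', hτi] at h1
      rw [hτi] at h3
      have h4 : (L.θ : ℂ) * L.ϖ * (2 * (α j * (L.ϖ ^ 2 * (η * A j)) + β j * (L.ϖ ^ 2 * G j))) =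
          L.ϖ ^ 4 * (L.θ * η * (η * α j * A j + β j * G j)) := by
        linear_combination (L.θ : ℂ) * L.ϖ * (α j * (L.ϖ ^ 2 * (η * A j)) +
          β j * (L.ϖ ^ 2 * G j)) * hη2
      rw [← hb j]
      push_cast
      field_simp
      linear_combination (L.θ : ℂ) * L.ϖ * (h1 - μ * h3) + h4 -
        (L.θ : ℂ) * (p (j + 1) - μ * α (j + 1)) * hτ -
        (L.ϖ : ℂ) ^ 2 * (p (j - 1) - μ * α (j - 1)) * hθc
    obtain ⟨Y, hY⟩ := exists_lift (solve_res (b := L.b) (α := α)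
      (u := fun j => (p j - μ * α j) / (L.ϖ : ℂ) ^ 4)
      (f := fun j => L.θ * η * (η * α j * A j + β j * G j)) L.hϖ L.hθ L.hαu L.hα
      (by rw [hμ, sub_self, zero_div]) heq)
    refine ⟨Y, fun j => ?_⟩
    rw [hY]; field_simp; ring
  obtain ⟨W, hW⟩ : ∃ W : ZMod k → V, ∀ j, q j = ν * β j + L.ϖ ^ 4 * W j := by
    have heq : ∀ j, (L.θ : ℂ) ^ 2 * ((q (j - 1) - ν * β (j - 1)) / L.ϖ ^ 4) +
        (L.ϖ : ℂ) ^ 2 * ((q (j + 1) - ν * β (j + 1)) / L.ϖ ^ 4) =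
        L.θ * (L.b j * ((q j - ν * β j) / L.ϖ ^ 4)) +
          ((L.θ * η * (η * β j * A j + α j * G' j) : V) : ℂ) := by
      intro j
      have h1 := J.hq j
      have h3 := J.hβ j
      rw [hG', hA', hτi] at h1
      rw [hτi] at h3
      have h4 : (L.θ : ℂ) * L.ϖ * (2 * (β j * (L.ϖ ^ 2 * (η * A j)) + α j * (L.ϖ ^ 2 * G' j))) =
          L.ϖ ^ 4 * (L.θ * η * (η * β j * A j + α j * G' j)) := by
        linear_combination (L.θ : ℂ) * L.ϖ * (β j * (L.ϖ ^ 2 * (η * A j)) +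
          α j * (L.ϖ ^ 2 * G' j)) * hη2
      rw [← hb j]
      push_cast
      field_simp
      linear_combination (L.θ : ℂ) * L.ϖ * (h1 - ν * h3) + h4 -
        (L.θ : ℂ) * (q (j - 1) - ν * β (j - 1)) * hτ -
        (L.ϖ : ℂ) ^ 2 * (q (j + 1) - ν * β (j + 1)) * hθc
    obtain ⟨W, hW⟩ := exists_lift (solve_res' (b := L.b) (β := β)
      (u := fun j => (q j - ν * β j) / (L.ϖ : ℂ) ^ 4)
      (f := fun j => L.θ * η * (η * β j * A j + α j * G' j)) L.hϖ L.hθ L.hβu L.hβ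
      (by rw [hν, sub_self, zero_div]) heq)
    refine ⟨W, fun j => ?_⟩
    rw [hW]; field_simp; ring
  -- degree four
  obtain ⟨S, hS, hSr⟩ : ∃ S : ZMod k → V, (∀ j, a4 j = (μ + ν) * a j + L.ϖ ^ 5 * S j) ∧
      ∀ j, residue V (S j) = -(residue V η * residue V (A j)) ^ 2 := by
    have heq : ∀ j, (L.b j : ℂ) * ((a4 j - (μ + ν) * a j) / L.ϖ ^ 5) =
        ((-(2 * (α j * W j + β j * Y j) + (η * A j) ^ 2 + 2 * (G j * G' j)) : V) : ℂ) +
        L.ϖ * ((a4 (j + 1) - (μ + ν) * a (j + 1)) / L.ϖ ^ 5 +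
          (a4 (j - 1) - (μ + ν) * a (j - 1)) / L.ϖ ^ 5) := by
      intro j
      have h1 := J.ha4 j
      have h3 := J.ha j
      rw [hW, hY, hG, hG'] at h1
      have h4 : a j ^ 2 = (L.ϖ : ℂ) ^ 4 * (η * A j) ^ 2 := by rw [hA']; ring
      rw [h4] at h1
      rw [← hb j]
      have e2 : ((2 : V) : ℂ) = 2 := rfl
      push_cast
      rw [e2]
      field_simp
      linear_combination -h1 + (μ + ν) * h3
    obtain ⟨S, hS⟩ := exists_lift (solve_b (b := L.b)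
      (u := fun j => (a4 j - (μ + ν) * a j) / (L.ϖ : ℂ) ^ 5)
      (f := fun j => -(2 * (α j * W j + β j * Y j) + (η * A j) ^ 2 + 2 * (G j * G' j)))
      L.hϖ L.hbu heq)
    refine ⟨S, fun j => ?_, fun j => ?_⟩
    · rw [hS]; field_simp; ring
    · have h1 : L.b j * S j = -(2 * (α j * W j + β j * Y j) + (η * A j) ^ 2 + 2 * (G j * G' j)) +
          L.ϖ * (S (j + 1) + S (j - 1)) := by
        apply Subtype.ext
        have := heq j
        rw [← hS, ← hS, ← hS] at this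
        push_cast at this ⊢
        exact this
      have h3 := congrArg (residue V) h1
      rw [map_mul, map_add, map_mul _ L.ϖ, L.hbr, L.hϖr, zero_mul, add_zero, one_mul, map_neg,
        map_add, map_add, map_mul _ 2, map_mul _ 2, h2, zero_mul, zero_mul, map_pow, map_mul] at h3
      rw [h3]
      ring
  obtain ⟨R, hR⟩ : ∃ R : ZMod k → V, ∀ j, g4 j = 2 * μ * g j + L.ϖ ^ 7 * R j := by
    have heq : ∀ j, ((L.θ ^ 2 : V) : ℂ) * ((g4 (j + 1) - 2 * μ * g (j + 1)) / L.ϖ ^ 7) =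
        ((η * (α j * Y j + L.ϖ ^ 2 * (β j * X j) + η * A j * G j) : V) : ℂ) +
        L.ϖ * (L.b j * ((g4 j - 2 * μ * g j) / L.ϖ ^ 7)) +
        ((-(L.ϖ ^ 4 * L.θ' ^ 2) : V) : ℂ) * ((g4 (j - 1) - 2 * μ * g (j - 1)) / L.ϖ ^ 7) := by
      intro j
      have h1 := J.hg4 j
      have h3 := J.hg j
      have h4 : 2 * (α j * p j + β j * h j + a j * g j) = 2 * μ * (α j : ℂ) ^ 2 +
            L.ϖ ^ 5 * (η * (α j * Y j + L.ϖ ^ 2 * (β j * X j) + η * A j * G j)) := by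
        rw [hY, hX, hA', hG]
        linear_combination (L.ϖ : ℂ) ^ 4 * (α j * Y j + L.ϖ ^ 2 * (β j * X j) +
          η * A j * G j) * hη2
      rw [hτi] at h1 h3
      rw [← hb j]
      push_cast
      rw [← hτ]
      field_simp
      linear_combination (h1 - 2 * μ * h3) + h4
    obtain ⟨R, hR⟩ := exists_lift (solve_shift (θ := L.θ ^ 2) (θ' := L.θ' ^ 2)
      (e₂ := -(L.ϖ ^ 4 * L.θ' ^ 2)) (b := L.b)
      (u := fun j => (g4 j - 2 * μ * g j) / (L.ϖ : ℂ) ^ 7)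
      (f := fun j => η * (α j * Y j + L.ϖ ^ 2 * (β j * X j) + η * A j * G j))
      (by rw [← mul_pow, L.hθ, one_pow]) L.hϖ
      (Ideal.neg_mem_iff _ |>.mpr (Ideal.mul_mem_right _ _
        (Ideal.pow_mem_of_mem _ L.hϖ 4 (by norm_num)))) heq)
    refine ⟨R, fun j => ?_⟩
    rw [hR]; field_simp; ring
  -- the relation of order five
  have hrel3 := res3 J
  have hrel5 := res5 J
  have hV : ∑ j, β j * (α j * S j + L.ϖ * (L.ϖ * (β j * R j) + η * (Y j * A j) + W j * G j +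
      L.ϖ ^ 2 * (X j * G' j))) = 0 := by
    apply Subtype.ext
    have h3 : (L.ϖ : ℂ) ^ 5 * ∑ j, (β j : ℂ) * (α j * S j + L.ϖ * (L.ϖ * (β j * R j) +
        η * (Y j * A j) + W j * G j + L.ϖ ^ 2 * (X j * G' j))) = 0 := by
      have h4 : ∑ j, (β j : ℂ) * (α j * a4 j + β j * g4 j + p j * a j + q j * g j + h j * g' j) =
          (2 * μ + ν) * ∑ j, ((α j : ℂ) * β j * a j + (β j : ℂ) ^ 2 * g j) +
          (L.ϖ : ℂ) ^ 5 * ∑ j, (β j : ℂ) * (α j * S j + L.ϖ * (L.ϖ * (β j * R j) +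
            η * (Y j * A j) + W j * G j + L.ϖ ^ 2 * (X j * G' j))) := by
        rw [Finset.mul_sum, Finset.mul_sum, ← Finset.sum_add_distrib]
        refine Finset.sum_congr rfl (fun j _ => ?_)
        rw [hS, hR, hY, hW, hX, hG, hG', hA']
        ring
      rw [hrel5, hrel3, mul_zero, zero_add] at h4
      exact h4.symm
    have h5 := (mul_eq_zero.mp h3).resolve_left (pow_ne_zero _ hϖ0)
    push_cast
    exact h5
  have h6 := congrArg (residue V) hV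
  rw [map_sum, map_zero] at h6
  have hP0 := L.hP0
  have hηr : residue V η ≠ 0 := (hηu.map (residue V)).ne_zero
  have h7 : ∀ j, residue V (β j * (α j * S j + L.ϖ * (L.ϖ * (β j * R j) + η * (Y j * A j) +
      W j * G j + L.ϖ ^ 2 * (X j * G' j)))) =
      -(residue V η ^ 2 * (residue V (α 0) * residue V (β 0)) ^ 3) := by
    intro j
    rw [map_mul, map_add, map_mul _ L.ϖ, L.hϖr, zero_mul, add_zero, map_mul, hSr, hAr]
    have := L.hPr j
    linear_combination -(residue V η * (residue V (α 0) * residue V (β 0))) ^ 2 * this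
  rw [Finset.sum_congr rfl (fun j _ => h7 j), Finset.sum_const, Finset.card_univ, ZMod.card,
    nsmul_eq_mul, odd_cast h2' hk, one_mul] at h6
  exact neg_ne_zero.mpr (mul_ne_zero (pow_ne_zero _ hηr) (pow_ne_zero _ hP0)) h6

end Loc

end Pool.Agent.MPf2967f.Odd
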