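import Mathlib
import Pool.Agent.Lib.MP_f2967f_an.Odd.Large5

set_option autoImplicit false

/-!
# No odd periods when `4c` is not integral at a place over two
-/

namespace Pool.Agent.MPf2967f.Odd

open Pool.Agent.MPf2967f.Fin IsLocalRing Filter Topology

variable {V : ValuationSubring ℂ} {k : ℕ} [NeZero k] {c : ℂ} {z : ZMod k → ℂ} {N : ℕ → ℕ}

lemma sq_one {F : Type*} [Field F] (h2 : (2 : F) = 0) {x : F} (hx : x * x = 1) : x = 1 := by
  have h1 : (x - 1) * (x - 1) = 0 := by linear_combination hx - (x - 1) * h2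
  exact sub_eq_zero.mp (mul_self_eq_zero.mp h1)

theorem large_case (hk : Odd k) (hz : ∀ j, z (j + 1) + z (j - 1) = z j ^ 2 + c)
    (hN : Tendsto N atTop atTop) (hAI : AI c k z N) (h2 : residue V 2 = 0) (hc : 4 * c ∉ V) :
    False := by
  have h2' : (2 : ResidueField V) = 0 := by rw [← h2, map_ofNat]
  obtain ⟨R, hR0, hR, ϖ, hϖ, hϖR⟩ := exists_small V c hc
  obtain ⟨b, hb, hbu, hbb⟩ := exists_b V c z hz R hR0 hR ϖ hϖ hϖR
  obtain ⟨θ, hθ, α, β, hαu, hβu, hα, hβ⟩ := MPf2967f.exists_eigen V b hbu (ϖ ^ 2)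
    (Ideal.pow_mem_of_mem _ hϖ 2 (by norm_num))
  have hϖ0 : (ϖ : ℂ) ≠ 0 := left_ne_zero_of_mul_eq_one hϖR
  have hθ0 : (θ : ℂ) ≠ 0 := Setup.coe_ne_zero_of_isUnit hθ
  set τ : ℂˣ := Units.mk0 ((θ : ℂ) / ϖ) (div_ne_zero hθ0 hϖ0) with hτdef
  have hτ : (τ : ℂ) * ϖ = θ := by
    rw [hτdef, Units.val_mk0]
    field_simp
  have hzb : ∀ j, 2 * z j * ϖ = b j := by
    intro j
    rw [hb]
    field_simp
    linear_combination z j * hϖR
  have hE : Eigen k z τ (fun j => (α j : ℂ)) (fun j => (β j : ℂ)) := by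
    have hτi : (τ : ℂ)⁻¹ = ϖ / θ := by rw [hτdef, Units.val_mk0, inv_div]
    have hτ' : (τ : ℂ) = θ / ϖ := by rw [hτdef, Units.val_mk0]
    constructor
    · intro j
      have h1 : (θ : ℂ) ^ 2 * α (j + 1) + (ϖ : ℂ) ^ 2 * α (j - 1) = θ * (b j * α j) :=
        congrArg (fun x : V => (x : ℂ)) (hα j)
      rw [← hzb] at h1
      rw [hτi, hτ']
      field_simp
      linear_combination h1
    · intro j
      have h1 : (θ : ℂ) ^ 2 * β (j - 1) + (ϖ : ℂ) ^ 2 * β (j + 1) = θ * (b j * β j) :=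
        congrArg (fun x : V => (x : ℂ)) (hβ j)
      rw [← hzb] at h1
      rw [hτi, hτ']
      field_simp
      linear_combination h1
  have hroot : ∀ m : ℕ, m ≠ 0 → (τ : ℂ) ^ m ≠ 1 := by
    intro m hm h
    have h1 : (θ : ℂ) ^ m = (ϖ : ℂ) ^ m := by
      rw [← hτ, mul_pow, h, one_mul]
    have h3 : θ ^ m = ϖ ^ m := Subtype.ext (by push_cast; exact h1)
    have h4 : ϖ ^ m ∈ maximalIdeal V :=
      Ideal.pow_mem_of_mem _ hϖ m (Nat.pos_of_ne_zero hm)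
    rw [← h3] at h4
    exact h4 (hθ.pow m)
  obtain ⟨S, hSτ, hSα, hSβ⟩ := exists_fsetup k c z hz τ _ _ hE
    (fun j => Setup.coe_ne_zero_of_isUnit (hαu j)) (fun j => Setup.coe_ne_zero_of_isUnit (hβu j))
    hroot
  obtain ⟨a, g, g', p, q, h, a4, g4, p5, J⟩ := S.jet (S.defect_zero hN hAI)
  rw [hSτ, hSα, hSβ] at J
  obtain ⟨θ', hθ'⟩ := hθ.exists_right_inv
  have hϖr : residue V ϖ = 0 := (residue_eq_zero_iff _).mpr hϖ
  set L : Loc V k z τ α β := ⟨ϖ, θ, θ', b, hϖ, hϖ0, hθ', hτ, hzb, fun j => by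
    have h1 := congrArg (residue V) (hbb j)
    rw [map_mul, map_add, map_mul, map_mul, hϖr, mul_zero, zero_mul, add_zero, map_one] at h1
    exact sq_one h2' h1, hαu, hβu, hα, hβ⟩
  obtain ⟨η, hηu, hη⟩ := L.large3 hk h2 J
  exact L.large5 hk h2 hηu hη J

end Pool.Agent.MPf2967f.Odd
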