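import Mathlib
import Pool.Agent.Lib.MP_f2967f_an.Fin.Defect

set_option autoImplicit false

/-!
# The multiplier of a periodic orbit in a Siegel domain is not a root of unity
-/

namespace Pool.Agent.MPf2967f.Odd

open Filter Topology Pool.Agent.MPf2967f.Fin

lemma iter_growth {K : ℕ} {u D : ℕ → ℂ} (hu : ∀ n, u (n + K) = u n + D n)
    (hD : ∀ n, D (n + K) = D n) (n q : ℕ) : u (n + K * q) = u n + q * D n ∧ D (n + K * q) = D n := by
  induction q with
  | zero => simp
  | succ q ih =>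
    have e : n + K * (q + 1) = (n + K * q) + K := by ring
    rw [e, hu, hD, ih.1, ih.2]
    refine ⟨?_, rfl⟩
    push_cast
    ring

lemma growth_aux {k m r e : ℕ} (hm : m ≠ 0) {N : ℕ → ℕ} (hN : Tendsto N atTop atTop)
    {u D : ℕ → ℂ} (hu : ∀ n, u (n + k * m) = u n + D n) (hD : ∀ n, D (n + k * m) = D n) {L : ℂ}
    (h : Tendsto (fun i => u (k * N i + e)) atTop (𝓝 L)) (hr : ∃ᶠ i in atTop, N i % m = r) :
    D (k * r + e) = 0 := by
  by_contra hne
  have hpos : 0 < ‖D (k * r + e)‖ := norm_pos_iff.mpr hne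
  have hq : Tendsto (fun i => ((N i / m : ℕ) : ℝ)) atTop atTop := by
    refine tendsto_natCast_atTop_atTop.comp ?_
    rw [tendsto_atTop_atTop] at hN ⊢
    intro b
    obtain ⟨i, hi⟩ := hN (b * m)
    exact ⟨i, fun a ha => (Nat.le_div_iff_mul_le (Nat.pos_of_ne_zero hm)).mpr (hi a ha)⟩
  have hb : ∀ᶠ i in atTop, ‖u (k * N i + e)‖ < ‖L‖ + 1 :=
    h.norm.eventually (gt_mem_nhds (lt_add_one _))
  have hbig : ∀ᶠ i in atTop, (‖L‖ + 1 + ‖u (k * r + e)‖) / ‖D (k * r + e)‖ < ((N i / m : ℕ) : ℝ) :=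
    hq.eventually (eventually_gt_atTop _)
  obtain ⟨i, hi, hi1, hi2⟩ := (hr.and_eventually (hb.and hbig)).exists
  have key : u (k * N i + e) = u (k * r + e) + ((N i / m : ℕ) : ℂ) * D (k * r + e) := by
    have h1 := (iter_growth hu hD (k * r + e) (N i / m)).1
    rw [← h1]
    congr 1
    have h2 := Nat.div_add_mod (N i) m
    rw [hi] at h2
    nth_rewrite 1 [← h2]
    ring
  rw [div_lt_iff₀ hpos] at hi2
  have h3 : ((N i / m : ℕ) : ℂ) * D (k * r + e) = u (k * N i + e) - u (k * r + e) := by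
    rw [key]; ring
  have h4 := congrArg norm h3
  rw [norm_mul, Complex.norm_natCast] at h4
  have h5 := norm_sub_le (u (k * N i + e)) (u (k * r + e))
  linarith

lemma growth {k m : ℕ} (hm : m ≠ 0) {N : ℕ → ℕ} (hN : Tendsto N atTop atTop)
    {u D : ℕ → ℂ} (hu : ∀ n, u (n + k * m) = u n + D n) (hD : ∀ n, D (n + k * m) = D n)
    {L₀ L₁ : ℂ} (h0 : Tendsto (fun i => u (k * N i)) atTop (𝓝 L₀))
    (h1 : Tendsto (fun i => u (k * N i + 1)) atTop (𝓝 L₁)) :
    ∃ r, D (k * r) = 0 ∧ D (k * r + 1) = 0 := by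
  obtain ⟨r, hr⟩ : ∃ r, ∃ᶠ i in atTop, N i % m = r := by
    by_contra hcon
    push Not at hcon
    have h2 : ∀ᶠ i in atTop, ∀ r ∈ Finset.range m, N i % m ≠ r := by
      rw [Filter.eventually_all_finset]
      intro r _
      exact hcon r
    obtain ⟨i, hi⟩ := h2.exists
    exact hi (N i % m) (Finset.mem_range.mpr (Nat.mod_lt _ (Nat.pos_of_ne_zero hm))) rfl
  exact ⟨r, growth_aux (e := 0) hm hN hu hD (by simpa using h0) hr, growth_aux hm hN hu hD h1 hr⟩

variable {k : ℕ} [NeZero k] {c : ℂ} {z : ZMod k → ℂ} {N : ℕ → ℕ}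

omit [NeZero k] in
lemma z_rec (hz : ∀ j, z (j + 1) + z (j - 1) = z j ^ 2 + c) (i : ℕ) :
    z ((i + 2 : ℕ) : ZMod k) = z ((i + 1 : ℕ) : ZMod k) ^ 2 + c - z (i : ZMod k) := by
  have hz := hz ((i + 1 : ℕ) : ZMod k)
  have e1 : ((i + 1 : ℕ) : ZMod k) + 1 = ((i + 2 : ℕ) : ZMod k) := by push_cast; ring
  have e2 : ((i + 1 : ℕ) : ZMod k) - 1 = ((i : ℕ) : ZMod k) := by push_cast; ring
  rw [e1, e2] at hz
  linear_combination hz

/-- solutions of the linearised recursion -/
def Hom (z : ZMod k → ℂ) (v : ℕ → ℂ) : Prop :=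
  ∀ n : ℕ, v (n + 2) = 2 * z ((n + 1 : ℕ) : ZMod k) * v (n + 1) - v n

omit [NeZero k] in
lemma z_add (m n : ℕ) : z ((n + k * m : ℕ) : ZMod k) = z (n : ZMod k) := by
  congr 1
  push_cast
  simp

omit [NeZero k] in
lemma coeff_zero_orbit (hz : ∀ j, z (j + 1) + z (j - 1) = z j ^ 2 + c) {Q : ℕ → Polynomial ℂ}
    (h0 : (Q 0).coeff 0 = z 0) (h1 : (Q 1).coeff 0 = z 1)
    (hQ : ∀ n, Q (n + 2) = Q (n + 1) ^ 2 + Polynomial.C c - Q n) (n : ℕ) :
    (Q n).coeff 0 = z (n : ZMod k) := by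
  have key : ∀ n, (Q n).coeff 0 = z (n : ZMod k) ∧ (Q (n + 1)).coeff 0 = z ((n + 1 : ℕ) : ZMod k) := by
    intro n
    induction n with
    | zero => simp [h0, h1]
    | succ n ih =>
      refine ⟨ih.2, ?_⟩
      rw [hQ n, z_rec hz n, Polynomial.coeff_sub, Polynomial.coeff_add, pow_two,
          Polynomial.mul_coeff_zero, Polynomial.coeff_C_zero, ih.2, ih.1]
      ring
  exact (key n).1

lemma hom_periodic (hz : ∀ j, z (j + 1) + z (j - 1) = z j ^ 2 + c)
    (hN : Tendsto N atTop atTop) (hAI : AI c k z N) {τ : ℂˣ} {α β : ZMod k → ℂ}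
    (hE : Eigen k z τ α β) (hα : ∀ j, α j ≠ 0) {m : ℕ} (hm : m ≠ 0) (hτ : (τ : ℂ) ^ m = 1)
    {v : ℕ → ℂ} (hv : Hom z v) (n : ℕ) : v (n + k * m) = v n := by
  obtain ⟨Q, hQ0, hQ1, hQ⟩ := exists_orbit c
    (Polynomial.C (z 0) + Polynomial.C (v 0) * Polynomial.X)
    (Polynomial.C (z 1) + Polynomial.C (v 1) * Polynomial.X)
  have hc0 := coeff_zero_orbit (z := z) hz (by rw [hQ0]; simp) (by rw [hQ1]; simp) hQ
  have key : ∀ i, (Q i).coeff 1 = v i ∧ (Q (i + 1)).coeff 1 = v (i + 1) := by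
    intro i
    induction i with
    | zero => simp [hQ0, hQ1]
    | succ i ih =>
      refine ⟨ih.2, ?_⟩
      rw [hQ i, hv i, Polynomial.coeff_sub, Polynomial.coeff_add, pow_two,
          Polynomial.mul_coeff_one, Polynomial.coeff_C, hc0, ih.2, ih.1]
      simp
      ring
  have hl := hAI Q (by rw [hQ0]; simp) (by rw [hQ1]; simp) hQ 1
  have hl0 : Tendsto (fun i => v (k * N i)) atTop (𝓝 ((Q 0).coeff 1)) :=
    hl.1.congr (fun i => (key _).1)
  have hl1 : Tendsto (fun i => v (k * N i + 1)) atTop (𝓝 ((Q 1).coeff 1)) :=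
    hl.2.congr (fun i => (key _).1)
  set A : ℕ → ℂ := atS τ α with hA
  have hAne : ∀ i, A i ≠ 0 := fun i => atS_ne τ hα i
  have hAper : ∀ i, A (i + k * m) = A i := by
    intro i
    simp only [hA, atS]
    have e : ((i + k * m : ℕ) : ZMod k) = (i : ZMod k) := by push_cast; simp
    rw [e, pow_add, pow_mul', hτ, one_pow, mul_one]
  have hwr : ∀ i, v (i + 1) * A i - v i * A (i + 1) = v 1 * A 0 - v 0 * A 1 := by
    intro i
    induction i with
    | zero => ring
    | succ i ih =>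
      rw [← ih, hv i, hA, atS_eqn hE i]
      ring
  set D : ℕ → ℂ := fun i => v (i + k * m) - v i with hD
  have hDwr : ∀ i, D (i + 1) * A i = D i * A (i + 1) := by
    intro i
    have h1 := hwr (i + k * m)
    have h2 := hwr i
    have e : i + k * m + 1 = i + 1 + k * m := by ring
    rw [e, hAper, hAper] at h1
    simp only [hD]
    linear_combination h1 - h2
  have hDA : ∀ i, D i * A 0 = D 0 * A i := by
    intro i
    induction i with
    | zero => ring
    | succ i ih =>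
      apply mul_right_cancel₀ (hAne i)
      linear_combination A 0 * hDwr i + A (i + 1) * ih
  have hDper : ∀ i, D (i + k * m) = D i := by
    intro i
    apply mul_right_cancel₀ (hAne 0)
    rw [hDA, hDA, hAper]
  obtain ⟨r, hr, -⟩ := growth hm hN (u := v) (D := D) (fun n => by simp only [hD]; ring) hDper hl0 hl1
  have hD0 : D 0 = 0 := by
    have h1 := hDA (k * r)
    rw [hr, zero_mul] at h1
    exact (mul_eq_zero.mp h1.symm).resolve_right (hAne _)
  have hDn : D n = 0 := by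
    have h1 := hDA n
    rw [hD0, zero_mul] at h1
    exact (mul_eq_zero.mp h1).resolve_right (hAne 0)
  simp only [hD] at hDn
  exact sub_eq_zero.mp hDn

lemma orbit_periodic (hz : ∀ j, z (j + 1) + z (j - 1) = z j ^ 2 + c)
    (hN : Tendsto N atTop atTop) (hAI : AI c k z N) {τ : ℂˣ} {α β : ZMod k → ℂ}
    (hE : Eigen k z τ α β) (hα : ∀ j, α j ≠ 0) {m : ℕ} (hm : m ≠ 0) (hτ : (τ : ℂ) ^ m = 1)
    {Q : ℕ → Polynomial ℂ} (h0 : (Q 0).coeff 0 = z 0) (h1 : (Q 1).coeff 0 = z 1)
    (hQ : ∀ n, Q (n + 2) = Q (n + 1) ^ 2 + Polynomial.C c - Q n) (d : ℕ) :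
    ∀ n, (Q (n + k * m)).coeff d = (Q n).coeff d := by
  have hc0 := coeff_zero_orbit (z := z) hz h0 h1 hQ
  induction d using Nat.strong_induction_on with
  | _ d ih =>
  set E : ℕ → Polynomial ℂ := fun n => Q (n + k * m) - Q n with hE'
  have hdvd : ∀ n, Polynomial.X ^ d ∣ E n := by
    intro n
    rw [Polynomial.X_pow_dvd_iff]
    intro e he
    simp only [hE', Polynomial.coeff_sub, ih e he n, sub_self]
  have hrec : ∀ n, E (n + 2) = (Q (n + 1 + k * m) + Q (n + 1)) * E (n + 1) - E n := by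
    intro n
    have e1 : n + 2 + k * m = n + k * m + 2 := by ring
    have e2 : n + k * m + 1 = n + 1 + k * m := by ring
    simp only [hE']
    rw [e1, hQ (n + k * m), hQ n, e2]
    ring
  have hD : Hom z (fun n => (E n).coeff d) := by
    intro n
    simp only
    rw [hrec n, Polynomial.coeff_sub]
    congr 1
    obtain ⟨G, hG⟩ := hdvd (n + 1)
    have e2 : ∀ H : Polynomial ℂ, (Polynomial.X ^ d * H).coeff d = H.coeff 0 := by
      intro H
      have := Polynomial.coeff_X_pow_mul H d 0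
      rwa [zero_add] at this
    have e1 : (Q (n + 1 + k * m) + Q (n + 1)) * (Polynomial.X ^ d * G) =
        Polynomial.X ^ d * ((Q (n + 1 + k * m) + Q (n + 1)) * G) := by ring
    rw [hG, e1, e2, e2, Polynomial.mul_coeff_zero, Polynomial.coeff_add, hc0, hc0, z_add (z := z) m (n + 1)]
    ring
  have hDper : ∀ n, (E (n + k * m)).coeff d = (E n).coeff d :=
    fun n => hom_periodic hz hN hAI hE hα hm hτ hD n
  have hl := hAI Q h0 h1 hQ d
  obtain ⟨r, hr0, hr1⟩ := growth hm hN (u := fun n => (Q n).coeff d) (D := fun n => (E n).coeff d)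
    (fun n => by simp only [hE', Polynomial.coeff_sub]; ring) hDper hl.1 hl.2
  have hge : ∀ n, (E (k * r + n)).coeff d = 0 ∧ (E (k * r + n + 1)).coeff d = 0 := by
    intro n
    induction n with
    | zero => exact ⟨hr0, hr1⟩
    | succ n ihn =>
      refine ⟨ihn.2, ?_⟩
      have := hD (k * r + n)
      simp only [ihn.1, ihn.2, mul_zero, sub_zero] at this
      exact this
  intro n
  have h2 : (E n).coeff d = 0 := by
    have h3 : ∀ q, (E (n + k * m * q)).coeff d = (E n).coeff d := by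
      intro q
      induction q with
      | zero => simp
      | succ q ihq =>
        have e : n + k * m * (q + 1) = n + k * m * q + k * m := by ring
        rw [e, hDper, ihq]
    have h4 : n + k * m * r = k * r + (n + k * m * r - k * r) := by
      have : k * r ≤ n + k * m * r := by
        have h5 : k * r ≤ k * m * r := by
          have : 1 ≤ m := Nat.pos_of_ne_zero hm
          calc k * r = k * 1 * r := by ring
            _ ≤ k * m * r := by gcongr
        omega
      omega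
    rw [← h3 r, h4]
    exact (hge _).1
  simp only [hE', Polynomial.coeff_sub] at h2
  exact sub_eq_zero.mp h2

/-- The multiplier is not a root of unity. -/
theorem not_root (hz : ∀ j, z (j + 1) + z (j - 1) = z j ^ 2 + c)
    (hN : Tendsto N atTop atTop) (hAI : AI c k z N) {τ : ℂˣ} {α β : ZMod k → ℂ}
    (hE : Eigen k z τ α β) (hα : ∀ j, α j ≠ 0) (m : ℕ) (hm : m ≠ 0) : (τ : ℂ) ^ m ≠ 1 := by
  intro hτ
  obtain ⟨Q, hQ0, hQ1, hQ⟩ := exists_orbit c (Polynomial.C (z 0)) (Polynomial.X + Polynomial.C (z 1))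
  have hper := orbit_periodic (z := z) hz hN hAI hE hα hm hτ (Q := Q) (by rw [hQ0]; simp)
    (by rw [hQ1]; simp) hQ
  have hdeg : ∀ n, (Q (n + 1)).natDegree = 2 ^ n ∧ (Q n).natDegree ≤ 2 ^ n := by
    intro n
    induction n with
    | zero =>
      rw [zero_add, hQ0, hQ1]
      simp
    | succ n ih =>
      refine ⟨?_, ?_⟩
      · rw [hQ n, add_sub_assoc]
        have h1 : (Q (n + 1) ^ 2).natDegree = 2 ^ (n + 1) := by
          rw [Polynomial.natDegree_pow, ih.1]; ring
        rw [Polynomial.natDegree_add_eq_left_of_natDegree_lt, h1]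
        rw [h1]
        have h2 : (Polynomial.C c - Q n).natDegree ≤ 2 ^ n := by
          refine (Polynomial.natDegree_sub_le _ _).trans ?_
          simp [ih.2]
        have h3 : 2 ^ n < 2 ^ (n + 1) := Nat.pow_lt_pow_right (by norm_num) (by omega)
        omega
      · rw [ih.1]
        exact Nat.pow_le_pow_right (by norm_num) (by omega)
  have heq : Q (k * m + 1) = Q 1 := by
    ext d
    have := hper d 1
    rwa [add_comm 1 (k * m)] at this
  have h1 := (hdeg (k * m)).1
  rw [heq, hQ1, Polynomial.natDegree_X_add_C] at h1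
  have h2 : k * m ≠ 0 := mul_ne_zero (NeZero.ne k) hm
  have h3 : 2 ^ 0 < 2 ^ (k * m) := Nat.pow_lt_pow_right (by norm_num) (by omega)
  omega

end Pool.Agent.MPf2967f.Odd
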