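import Mathlib
import Pool.Agent.Lib.MP_f2967f_an.Odd.Gauge
import Pool.Agent.Lib.MP_f2967f_an.Odd.Root

set_option autoImplicit false

/-!
# Places over two where `4c` is integral
-/

namespace Pool.Agent.MPf2967f.Odd

open Pool.Agent.MPf2967f.Fin IsLocalRing Filter Topology

variable {V : ValuationSubring ℂ} {k : ℕ} [NeZero k] {c : ℂ} {z : ZMod k → ℂ} {N : ℕ → ℕ}

/-- the traces are integral -/
lemma exists_t (hz : ∀ j, z (j + 1) + z (j - 1) = z j ^ 2 + c) (hc : 4 * c ∈ V) :
    ∃ t : ZMod k → V, ∀ j, (t j : ℂ) = 2 * z j := by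
  have key : ∀ j, 2 * z j ∈ V := by
    obtain ⟨j₀, hj₀⟩ := Finite.exists_max (fun j => V.valuation (2 * z j))
    intro j
    rw [← V.valuation_le_one_iff]
    refine (hj₀ j).trans ?_
    by_contra hcon
    push Not at hcon
    have hpos : 0 < V.valuation (2 * z j₀) := lt_trans zero_lt_one hcon
    have h2 : V.valuation (2 : ℂ) ≤ 1 := by
      rw [V.valuation_le_one_iff]
      exact ofNat_mem V 2
    have h4c : V.valuation (4 * c) ≤ V.valuation (2 * z j₀) :=
      ((V.valuation_le_one_iff _).mpr hc).trans hcon.le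
    have hb : ∀ i, V.valuation (2 * (2 * z i)) ≤ V.valuation (2 * z j₀) := by
      intro i
      rw [map_mul]
      calc V.valuation 2 * V.valuation (2 * z i) ≤ 1 * V.valuation (2 * z j₀) := by
            gcongr
            exact hj₀ i
        _ = _ := one_mul _
    have h3 : (2 * z j₀) * (2 * z j₀) = 2 * (2 * z (j₀ + 1)) + 2 * (2 * z (j₀ - 1)) - 4 * c := by
      linear_combination -4 * hz j₀
    have h4 : V.valuation (2 * z j₀) * V.valuation (2 * z j₀) ≤ V.valuation (2 * z j₀) := by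
      rw [← map_mul, h3]
      exact V.valuation.map_sub_le (V.valuation.map_add_le (hb _) (hb _)) h4c
    have h5 : 1 * V.valuation (2 * z j₀) < V.valuation (2 * z j₀) * V.valuation (2 * z j₀) :=
      mul_lt_mul_of_pos_right hcon hpos
    rw [one_mul] at h5
    exact absurd h4 (not_le.mpr h5)
  exact ⟨fun j => ⟨2 * z j, key j⟩, fun j => rfl⟩

omit [NeZero k] in
lemma t_sq (hz : ∀ j, z (j + 1) + z (j - 1) = z j ^ 2 + c) {C : V} (hC : (C : ℂ) = 4 * c)
    {t : ZMod k → V} (ht : ∀ j, (t j : ℂ) = 2 * z j) (h2 : residue V 2 = 0) (j : ZMod k) :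
    residue V (t j) ^ 2 = residue V C := by
  have h1 : t j ^ 2 = 2 * (t (j + 1) + t (j - 1)) - C := by
    apply Subtype.ext
    push_cast
    rw [hC, ht, ht, ht]
    show (2 * z j) ^ 2 = 2 * (2 * z (j + 1) + 2 * z (j - 1)) - 4 * c
    linear_combination -4 * hz j
  have h3 := congrArg (residue V) h1
  rw [map_pow, map_sub, map_mul, h2, zero_mul, zero_sub] at h3
  rw [h3]
  have h2' : (2 : ResidueField V) = 0 := by rw [← h2, map_ofNat]
  linear_combination -(residue V C) * h2'

omit [NeZero k] in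
lemma t_const (hz : ∀ j, z (j + 1) + z (j - 1) = z j ^ 2 + c) {C : V} (hC : (C : ℂ) = 4 * c)
    {t : ZMod k → V} (ht : ∀ j, (t j : ℂ) = 2 * z j) (h2 : residue V 2 = 0) (j : ZMod k) :
    residue V (t j) = residue V (t 0) := by
  have h2' : (2 : ResidueField V) = 0 := by rw [← h2, map_ofNat]
  have h3 := t_sq hz hC ht h2 j
  have h4 := t_sq hz hC ht h2 0
  have h5 : (residue V (t j) - residue V (t 0)) ^ 2 = 0 := by
    linear_combination h3 - h4 + residue V (t 0) * (residue V (t 0) - residue V (t j)) * h2'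
  exact sub_eq_zero.mp (pow_eq_zero_iff two_ne_zero |>.mp h5)

omit [NeZero k] in
lemma geom_ne {F : Type*} [Field F] (h2 : (2 : F) = 0) (hk : Odd k) {x : F}
    (hx : x ^ k = 1 → x = 1) : ∑ l ∈ Finset.range k, x ^ l ≠ 0 := by
  intro h0
  have h1 := mul_neg_geom_sum x k
  have h3 : x ^ k = 1 := by
    rw [h0, mul_zero] at h1
    exact (sub_eq_zero.mp h1.symm).symm
  rw [hx h3] at h0
  simp only [one_pow, Finset.sum_const, Finset.card_range, nsmul_eq_mul, mul_one] at h0
  rw [odd_cast h2 hk] at h0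
  exact one_ne_zero h0

theorem small_case (hk : Odd k) (hz : ∀ j, z (j + 1) + z (j - 1) = z j ^ 2 + c)
    (hN : Tendsto N atTop atTop) (hAI : AI c k z N) (h2 : residue V 2 = 0) {C : V}
    (hC : (C : ℂ) = 4 * c) {t : ZMod k → V} (ht : ∀ j, (t j : ℂ) = 2 * z j)
    {κ : ResidueField V} (hκ0 : κ ≠ 0) (hρ : residue V (t 0) = κ + κ⁻¹)
    (hκk : κ ^ k = 1 → κ = 1) (hκ3 : (κ ^ 3) ^ k = 1 → κ ^ 3 = 1) : False := by
  have h2' : (2 : ResidueField V) = 0 := by rw [← h2, map_ofNat]
  obtain ⟨T, T', A, B, τ, hTT, hτ, hA, hB, hE, hκ⟩ := exists_gauge hk h2 ht hκ0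
    (fun j => by rw [t_const hz hC ht h2 j]; exact hρ) hκk
  have hne : ∀ {x : V}, residue V x = 1 → (x : ℂ) ≠ 0 := by
    intro x hx h0
    have h1 : x = 0 := Subtype.ext h0
    rw [h1, map_zero] at hx
    exact zero_ne_one hx
  have hroot := not_root hz hN hAI hE (fun j => hne (hA j))
  obtain ⟨S, hSτ, hSα, hSβ⟩ := exists_fsetup k c z hz τ _ _ hE (fun j => hne (hA j))
    (fun j => hne (hB j)) hroot
  obtain ⟨a, g, g', p, q, h, a4, g4, p5, J⟩ := S.jet (S.defect_zero hN hAI)
  rw [hSτ, hSα, hSβ, hτ] at J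
  have h3 := small_core hk h2 hTT hA hB J
  have hT' : residue V T' = κ ∨ residue V T' = κ⁻¹ := by
    have h4 := congrArg (residue V) hTT
    rw [map_mul, map_one] at h4
    have h5 : residue V T' = (residue V T)⁻¹ := (inv_eq_of_mul_eq_one_right h4).symm
    rcases hκ with h | h
    · right; rw [h5, h]
    · left; rw [h5, h, inv_inv]
  rcases mul_eq_zero.mp h3 with h4 | h4
  · refine geom_ne h2' hk ?_ h4
    rcases hT' with h | h
    · rw [h]; exact hκk
    · rw [h, inv_pow, inv_eq_one, inv_eq_one]; exact hκk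
  · refine geom_ne h2' hk ?_ h4
    rcases hT' with h | h
    · rw [h]; exact hκ3
    · rw [h, inv_pow, inv_pow, inv_eq_one, inv_eq_one]; exact hκ3

end Pool.Agent.MPf2967f.Odd
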