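import Mathlib
import Pool.Agent.Lib.MP_f2967f_an.Odd.SmallCase
import Pool.Agent.Lib.MP_f2967f_an.Odd.LargeCase
import Pool.Agent.Lib.MP_f2967f_an.Odd.Arith
import Pool.Agent.Lib.MP_f2967f_an.Main

set_option autoImplicit false

/-!
# Odd periods
-/

namespace Pool.Agent.MPf2967f.Odd

open IsLocalRing Filter Topology Polynomial

section places

variable {k : ℕ} [NeZero k] {c : ℂ} {z : ZMod k → ℂ} {N : ℕ → ℕ}

lemma mem_all (hk : Odd k) (hz : ∀ j, z (j + 1) + z (j - 1) = z j ^ 2 + c)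
    (hN : Tendsto N atTop atTop) (hAI : AI c k z N) (V : ValuationSubring ℂ) : 4 * c ∈ V := by
  by_cases h2 : (2 : ℂ)⁻¹ ∈ V
  · exact V.mul_mem _ _ (ofNat_mem V 4) (mem_of_two_inv_mem hz hN hAI V h2)
  · by_contra hc
    exact large_case hk hz hN hAI (residue_two h2) hc

lemma residue_ne (hk : Odd k) (hz : ∀ j, z (j + 1) + z (j - 1) = z j ^ 2 + c)
    (hN : Tendsto N atTop atTop) (hAI : AI c k z N) {V : ValuationSubring ℂ} (h2 : (2 : ℂ)⁻¹ ∉ V)
    {C : V} (hC : (C : ℂ) = 4 * c) : residue V C ≠ 0 := by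
  intro h0
  have hr2 := residue_two h2
  have h2' : (2 : ResidueField V) = 0 := by rw [← hr2, map_ofNat]
  obtain ⟨t, ht⟩ := exists_t hz (mem_all hk hz hN hAI V)
  have h3 := t_sq hz hC ht hr2 0
  rw [h0] at h3
  have h4 : residue V (t 0) = 0 := pow_eq_zero_iff two_ne_zero |>.mp h3
  refine small_case hk hz hN hAI hr2 hC ht (κ := 1) one_ne_zero ?_ (fun _ => rfl)
    (fun _ => one_pow 3)
  rw [h4, inv_one]
  linear_combination -h2'

/-- the multiplier of the reduced linear recursion -/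
lemma exists_kappa {V : ValuationSubring ℂ} (t : V) :
    ∃ κ : ResidueField V, κ ≠ 0 ∧ residue V t = κ + κ⁻¹ := by
  obtain ⟨s, hs⟩ := IsAlgClosed.exists_pow_nat_eq ((t : ℂ) ^ 2 - 4) (n := 2) (by norm_num)
  set x : ℂ := (t + s) / 2 with hx
  set y : ℂ := (t - s) / 2 with hy
  have hxy : x * y = 1 := by
    simp only [hx, hy]
    linear_combination -hs / 4
  have hsum : x + y = t := by
    simp only [hx, hy]
    ring
  have hx0 : x ≠ 0 := left_ne_zero_of_mul_eq_one hxy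
  have hyinv : x⁻¹ = y := inv_eq_of_mul_eq_one_right hxy
  have hxV : x ∈ V ∧ y ∈ V := by
    rcases V.mem_or_inv_mem x with h | h
    · refine ⟨h, ?_⟩
      have : y = t - x := by rw [← hsum]; ring
      rw [this]
      exact sub_mem t.2 h
    · rw [hyinv] at h
      refine ⟨?_, h⟩
      have : x = t - y := by rw [← hsum]; ring
      rw [this]
      exact sub_mem t.2 h
  have h1 : (⟨x, hxV.1⟩ : V) * ⟨y, hxV.2⟩ = 1 := Subtype.ext hxy
  have h2 : (⟨x, hxV.1⟩ : V) + ⟨y, hxV.2⟩ = t := Subtype.ext hsum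
  have h3 := congrArg (residue V) h1
  rw [map_mul, map_one] at h3
  refine ⟨residue V ⟨x, hxV.1⟩, left_ne_zero_of_mul_eq_one h3, ?_⟩
  rw [inv_eq_of_mul_eq_one_right h3, ← map_add, h2]

lemma exists_place_two : ∃ V : ValuationSubring ℂ, (2 : ℂ)⁻¹ ∉ V := by
  obtain ⟨V, h2, -⟩ := exists_place (y := 2) (by
      have := isIntegral_algebraMap (R := ℤ) (A := ℂ) (x := 2)
      simpa using this) (by
      have h1 : minpoly ℤ (2 : ℂ) = X - C 2 := by
        have := minpoly.eq_X_sub_C_of_algebraMap_inj (A := ℤ) (B := ℂ) 2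
          (by simpa using Int.cast_injective)
        simpa using this
      rw [h1, coeff_sub, coeff_X_zero, coeff_C_zero]
      decide)
  exact ⟨V, h2⟩

lemma not_integral (hk : Odd k) (hz : ∀ j, z (j + 1) + z (j - 1) = z j ^ 2 + c)
    (hN : Tendsto N atTop atTop) (hAI : AI c k z N) : ¬ IsIntegral ℤ c := by
  intro hc
  obtain ⟨V, h2⟩ := exists_place_two
  have hcV : c ∈ V := by
    have h3 : IsIntegral V c := hc.tower_top
    obtain ⟨y, hy⟩ := IsIntegrallyClosed.isIntegral_iff.mp h3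
    have hy' : (y : ℂ) = c := hy
    rw [← hy']
    exact y.2
  refine residue_ne hk hz hN hAI h2 (C := 2 * (2 * ⟨c, hcV⟩)) ?_ ?_
  · show (2 : ℂ) * (2 * c) = 4 * c
    ring
  · rw [map_mul, residue_two h2, zero_mul]

lemma not_coprime (hk : Odd k) (hz : ∀ j, z (j + 1) + z (j - 1) = z j ^ 2 + c)
    (hN : Tendsto N atTop atTop) (hAI : AI c k z N) (hint : IsIntegral ℤ (4 * c)) :
    ¬ Nat.Coprime k (∏ e ∈ Finset.Icc 1 (minpoly ℚ c).natDegree, (4 ^ e - 1)) := by
  intro hcop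
  obtain ⟨V, h2⟩ := exists_place_two
  have hr2 := residue_two h2
  have h4 := mem_all hk hz hN hAI V
  set D : V := ⟨4 * c, h4⟩ with hD
  have hDc : (D : ℂ) = 4 * c := rfl
  obtain ⟨t, ht⟩ := exists_t hz h4
  obtain ⟨κ, hκ0, hκ⟩ := exists_kappa (t 0)
  have h2' : (2 : ResidueField V) = 0 := by rw [← hr2, map_ofNat]
  set P := minpoly ℤ (4 * c) with hP
  have hPm : P.Monic := minpoly.monic hint
  have hroot : P.eval₂ (Int.castRingHom (ResidueField V)) ((κ + κ⁻¹) ^ 2) = 0 := by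
    rw [← hκ, t_sq hz hDc ht hr2 0]
    have h5 : P.eval₂ (Int.castRingHom V) D = 0 := by
      apply Subtype.ext
      have h6 := hom_eval₂ P (Int.castRingHom V) V.subtype D
      have h7 : V.subtype.comp (Int.castRingHom V) = algebraMap ℤ ℂ := RingHom.ext_int _ _
      rw [h7] at h6
      have h8 : V.subtype (P.eval₂ (Int.castRingHom V) D) = 0 := by
        rw [h6]
        exact minpoly.aeval ℤ (4 * c)
      exact h8
    have h9 := hom_eval₂ P (Int.castRingHom V) (residue V) D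
    have h10 : (residue V).comp (Int.castRingHom V) = Int.castRingHom (ResidueField V) :=
      RingHom.ext_int _ _
    rw [h5, map_zero, h10] at h9
    exact h9.symm
  obtain ⟨e, he1, he2, he⟩ := finite_order h2' hκ0 hPm hroot
  have hdeg : P.natDegree = (minpoly ℚ c).natDegree := by
    have := natDegree_minpoly_mul (c := c) (n := 4) (by norm_num) (by push_cast; exact hint)
    push_cast at this
    exact this
  rw [hdeg] at he2
  have hcop' : Nat.Coprime k (4 ^ e - 1) :=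
    Nat.Coprime.coprime_dvd_right
      (Finset.dvd_prod_of_mem (fun e => 4 ^ e - 1) (Finset.mem_Icc.mpr ⟨he1, he2⟩)) hcop
  have hone : ∀ x : ResidueField V, x ^ (4 ^ e - 1) = 1 → x ^ k = 1 → x = 1 := by
    intro x h5 h6
    have h7 := pow_gcd_eq_one.mpr ⟨h6, h5⟩
    rw [hcop'.gcd_eq_one, pow_one] at h7
    exact h7
  refine small_case hk hz hN hAI hr2 hDc ht hκ0 hκ (hone κ he) (hone (κ ^ 3) ?_)
  rw [← pow_mul, mul_comm, pow_mul, he, one_pow]

end places

/-- **Odd periods.** -/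
theorem odd_arith (c : ℂ) (p : ℂ × ℂ) (k : ℕ) (hk : Odd k) (hp : (henon c)^[k] p = p)
    (U : Set (ℂ × ℂ)) (hU : IsOpen U) (hpU : p ∈ U) (φ : ℕ → ℕ) (hφ : StrictMono φ)
    (hlim : TendstoLocallyUniformlyOn (fun j => (henon c)^[φ j]) (id : ℂ × ℂ → ℂ × ℂ) atTop U) :
    IsIntegral ℤ (4 * c) ∧ Odd ((minpoly ℤ (4 * c)).coeff 0) ∧ ¬ IsIntegral ℤ c ∧
      ¬ Nat.Coprime k (∏ e ∈ Finset.Icc 1 (minpoly ℚ c).natDegree, (4 ^ e - 1)) := by
  obtain ⟨d, hne, z, N, hdvd, hz, hN, hAI⟩ := exists_data c p k hk.pos hp U hU hpU φ hφ hlim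
  have hd : Odd d := Odd.of_dvd_nat hk hdvd
  have hint : IsIntegral ℤ (4 * c) := isIntegral_of_forall_mem (mem_all hd hz hN hAI)
  refine ⟨hint, ?_, not_integral hd hz hN hAI, ?_⟩
  · by_contra hcon
    rw [Int.not_odd_iff_even] at hcon
    obtain ⟨V, h2, C, hC, hC0⟩ := exists_place hint hcon
    exact residue_ne hd hz hN hAI h2 hC hC0
  · intro hcop
    exact not_coprime hd hz hN hAI hint (hcop.coprime_dvd_left hdvd)

/-! ## Consequences -/

lemma odd_rat {q : ℚ} {k : ℕ} (h1 : IsIntegral ℤ (4 * (q : ℂ)))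
    (h2 : Odd ((minpoly ℤ (4 * (q : ℂ))).coeff 0))
    (h3 : ¬ Nat.Coprime k (∏ e ∈ Finset.Icc 1 (minpoly ℚ (q : ℂ)).natDegree, (4 ^ e - 1)))
    (h4 : ‖(q : ℂ)‖ ≤ 5 + 2 * √5) : 3 ∣ k ∧ ∃ m : ℤ, Odd m ∧ |m| ≤ 37 ∧ q = m / 4 := by
  have h5 : (minpoly ℚ (q : ℂ)).natDegree = 1 := by
    have : (q : ℂ) = algebraMap ℚ ℂ q := by simp
    rw [this, minpoly.eq_X_sub_C, natDegree_X_sub_C]
  constructor
  · rw [h5] at h3
    have h6 : ∏ e ∈ Finset.Icc 1 1, (4 ^ e - 1) = 3 := by decide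
    rw [h6] at h3
    have h7 := (Nat.Prime.coprime_iff_not_dvd Nat.prime_three (n := k))
    rw [Nat.coprime_comm] at h7
    exact not_not.mp (fun h => h3 (h7.mpr h))
  · have h6 : IsIntegral ℤ (4 * q : ℚ) := by
      have h7 : (algebraMap ℚ ℂ) (4 * q : ℚ) = 4 * (q : ℂ) := by simp
      rw [← h7] at h1
      exact (isIntegral_algebraMap_iff (algebraMap ℚ ℂ).injective).mp h1
    obtain ⟨m, hm⟩ := IsIntegrallyClosed.isIntegral_iff.mp h6
    have hm' : (m : ℚ) = 4 * q := by simpa using hm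
    have hmC : (4 * (q : ℂ)) = algebraMap ℤ ℂ m := by
      have := congrArg (fun x : ℚ => (x : ℂ)) hm'
      push_cast at this
      rw [← this]
      simp
    refine ⟨m, ?_, ?_, by rw [hm']; ring⟩
    · have h8 : minpoly ℤ (4 * (q : ℂ)) = X - C m := by
        rw [hmC]
        exact minpoly.eq_X_sub_C_of_algebraMap_inj (A := ℤ) (B := ℂ) m
          (by simpa using Int.cast_injective)
      rw [h8, coeff_sub, coeff_X_zero, coeff_C_zero, zero_sub, odd_neg] at h2
      exact h2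
    · have h8 : |(q : ℝ)| ≤ 5 + 2 * √5 := by
        have h9 : ‖(q : ℂ)‖ = |(q : ℝ)| := by
          have : (q : ℂ) = ((q : ℝ) : ℂ) := by push_cast; rfl
          rw [this, Complex.norm_real, Real.norm_eq_abs]
        rwa [h9] at h4
      have h9 : √5 < 2.2361 := by
        rw [Real.sqrt_lt' (by norm_num)]
        norm_num
      have h10 : |(m : ℝ)| < 38 := by
        have h11 : (m : ℝ) = 4 * (q : ℝ) := by exact_mod_cast hm'
        rw [h11, abs_mul]
        norm_num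
        linarith
      have h11 : |m| < 38 := by exact_mod_cast h10
      omega

lemma coprime_of_prime {D k : ℕ} (hk : k.Prime) (hD : 2 ^ D + 1 < k) :
    Odd k ∧ Nat.Coprime k (∏ e ∈ Finset.Icc 1 D, (4 ^ e - 1)) := by
  have h1 : 1 ≤ 2 ^ D := Nat.one_le_two_pow
  refine ⟨hk.odd_of_ne_two (by omega), ?_⟩
  rw [Nat.Prime.coprime_iff_not_dvd hk]
  intro h
  rw [Prime.dvd_finsetProd_iff hk.prime] at h
  obtain ⟨e, he, hdvd⟩ := h
  rw [Finset.mem_Icc] at he
  have h2 : 2 ^ e ≤ 2 ^ D := Nat.pow_le_pow_right (by norm_num) he.2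
  have h3 : 2 ^ 1 ≤ 2 ^ e := Nat.pow_le_pow_right (by norm_num) he.1
  have h4 : 4 ^ e - 1 = (2 ^ e + 1) * (2 ^ e - 1) := by
    have h5 : (4 : ℕ) ^ e = (2 ^ e) ^ 2 := by
      rw [← pow_mul, mul_comm, pow_mul]
      norm_num
    rw [h5]
    have h9 := Nat.sq_sub_sq (2 ^ e) 1
    rwa [one_pow] at h9
  rw [h4, hk.dvd_mul] at hdvd
  rcases hdvd with h | h
  · have := Nat.le_of_dvd (by omega) h
    omega
  · have := Nat.le_of_dvd (by omega) h
    omega

end Pool.Agent.MPf2967f.Odd
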